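import Pool.Agent.Y94.R.Loc
import Pool.Agent.Y94.R.Ray
set_option autoImplicit false

/-!
The totally real left factors of a polynomial, and the largest one.
-/

namespace Pool.Agent.Run7.h153.PC

open Polynomial IntermediateField Filter

open Pool.Agent.Y94.R

open scoped ComplexConjugate Topology

/-- All points of `ℂ` at which the real polynomial `A` has a value in the interval `(-1, 1)` are real. -/
def TotallyReal (A : ℝ[X]) : Prop :=
  ∀ (x : ℂ) (t : ℝ), |t| < 1 → (A.map (algebraMap ℝ ℂ)).eval x = (t : ℂ) → x.im = 0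

/-- the number of the critical points of `A`, with multiplicities, at which `|A| > 1` -/
noncomputable def outer (A : ℝ[X]) : ℕ :=
  Multiset.card ((derivative A).roots.filter fun z => 1 < |A.eval z|)

theorem ne_const {G : ℂ[X]} (hG : 0 < G.natDegree) (c : ℂ) : G - C c ≠ 0 := by
  intro h
  rw [sub_eq_zero.1 h, natDegree_C] at hG
  exact lt_irrefl _ hG

/-- a nonconstant polynomial is an open map -/
theorem nhds_le_map {G : ℂ[X]} (hG : 0 < G.natDegree) (v : ℂ) :
    𝓝 (G.eval v) ≤ map (fun z => G.eval z) (𝓝 v) := by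
  have h1 : AnalyticAt ℂ (fun z => G.eval z) v := by
    have h : Differentiable ℂ fun z => G.eval z := G.differentiable
    exact h.analyticAt v
  rcases h1.eventually_constant_or_nhds_le_map_nhds with h | h
  · exfalso
    refine ne_const hG (G.eval v) (eq_zero_of_infinite_isRoot _ ?_)
    refine infinite_of_mem_nhds v ?_
    filter_upwards [h] with z hz
    show IsRoot _ _
    rw [IsRoot.def, eval_sub, eval_C, hz, sub_self]
  · exact h

/-- **The real coordinate.** -/
theorem exists_coord' {P : ℂ[X]} (hP : 0 < P.natDegree) {T : Set ℝ} (hT : T.Infinite)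
    (hTf : {t : ℝ | |t| < 1 ∧ t ∉ T}.Finite) :
    ∃ (A : ℝ[X]) (w : ℂ[X]), 0 < w.natDegree ∧ 0 < A.natDegree ∧
      P = (A.map (algebraMap ℝ ℂ)).comp w ∧ TotallyReal A ∧
      (∀ N E : ℂ[X], E ≠ 0 → RealOn P T N E → ∃ U V : ℂ[X], IsCoprime U V ∧ V ≠ 0 ∧
        N * V.comp w = E * U.comp w) ∧
      ∀ᶠ b in KF P T, (w.eval b).im = 0 := by
  classical
  have hFne : (KF P T).NeBot := KF_neBot hP hT
  have hFle := KF_le P T
  have hFK : ∀ᶠ b in KF P T, ∃ t ∈ T, P.eval b = (t : ℝ) :=
    (eventually_principal.2 fun b hb => hb).filter_mono inf_le_right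
  obtain ⟨w, G, hw, hPG, hΘ, hwr⟩ := exists_real_coord hFle hP (by
    filter_upwards [hFK] with b ⟨t, _, hb⟩
    rw [hb, Complex.ofReal_im])
  have hPev : ∀ b, P.eval b = G.eval (w.eval b) := fun b => by rw [hPG, eval_comp]
  -- the real points
  obtain ⟨S, hSfin, hS⟩ : ∃ S : Set ℂ, S.Finite ∧
      ∀ b, (∃ t ∈ T, P.eval b = (t : ℝ)) → b ∉ S → (w.eval b).im = 0 := by
    rw [KF, eventually_inf_principal, eventually_cofinite] at hwr
    refine ⟨_, hwr, fun b hb hbS => ?_⟩
    simp only [Set.mem_ofPred_eq, not_forall, not_exists] at hbS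
    by_contra h
    exact hbS hb h
  set T' : Set ℝ := T \ ((fun b => (P.eval b).re) '' S) with hT'
  have hT'inf : T'.Infinite := hT.sdiff (hSfin.image _)
  have hroots : ∀ t ∈ T', ∀ v : ℂ, G.eval v = (t : ℝ) → v.im = 0 := by
    intro t ht v hv
    obtain ⟨b, hb⟩ := exists_eval_eq hw v
    have h1 : P.eval b = (t : ℝ) := by rw [hPev, hb, hv]
    rw [← hb]
    refine hS b ⟨t, ht.1, h1⟩ fun hbS => ht.2 ⟨b, hbS, ?_⟩
    simp only [h1, Complex.ofReal_re]
  have hGdeg : 0 < G.natDegree := by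
    have h1 := congrArg natDegree hPG
    rw [natDegree_comp] at h1
    by_contra h2
    rw [Nat.eq_zero_of_not_pos h2, zero_mul] at h1
    omega
  -- `G` is real
  have hGreal : G.map (starRingEnd ℂ) = G := by
    refine Polynomial.eq_of_infinite_eval_eq _ _ fun hfin => ?_
    refine hT'inf ((hfin.image fun v => (G.eval v).re).subset fun t ht => ?_)
    obtain ⟨v, hv⟩ := exists_eval_eq hGdeg (t : ℂ)
    refine ⟨v, ?_, by simp only [hv, Complex.ofReal_re]⟩
    show (G.map (starRingEnd ℂ)).eval v = G.eval v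
    rw [eval_conj_of_real G (hroots t ht v hv), hv, Complex.conj_ofReal]
  have hlift : G ∈ lifts (algebraMap ℝ ℂ) := by
    rw [lifts_iff_coeff_lifts]
    intro n
    have h3 := congrArg (fun p => p.coeff n) hGreal
    simp only [coeff_map] at h3
    exact ⟨(G.coeff n).re, (Complex.conj_eq_iff_re.1 h3)⟩
  obtain ⟨A, hA⟩ := (mem_lifts _).1 hlift
  have hAdeg : A.natDegree = G.natDegree := by
    rw [← hA, natDegree_map]
  -- totally real
  have hTf' : {t : ℝ | |t| < 1 ∧ t ∉ T'}.Finite := by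
    refine (hTf.union (hSfin.image fun b => (P.eval b).re)).subset ?_
    rintro t ⟨h1, h2⟩
    by_cases h3 : t ∈ T
    · right
      by_contra h4
      exact h2 ⟨h3, h4⟩
    · exact Or.inl ⟨h1, h3⟩
  have htr : TotallyReal A := by
    intro v t ht hv
    by_contra him
    rw [hA] at hv
    have h1 := nhds_le_map hGdeg v
    have h2 : ∀ᶠ z in 𝓝 v, z.im ≠ 0 := Complex.continuous_im.continuousAt.eventually_ne him
    have h3 : (fun z => G.eval z) '' {z | z.im ≠ 0} ∈ 𝓝 (G.eval v) := h1 (image_mem_map h2)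
    rw [hv] at h3
    have h4 : (fun s : ℝ => (s : ℂ)) ⁻¹' ((fun z => G.eval z) '' {z | z.im ≠ 0}) ∈ 𝓝 t :=
      Complex.continuous_ofReal.continuousAt.preimage_mem_nhds h3
    have h5 : {s : ℝ | |s| < 1} ∈ 𝓝 t :=
      (isOpen_lt continuous_abs continuous_const).mem_nhds ht
    have h6 : {t : ℝ | |t| < 1 ∧ t ∉ T'}ᶜ ∈ 𝓝[≠] t := nhdsNE_le_cofinite t (by
      rw [mem_cofinite, compl_compl]
      exact hTf')
    obtain ⟨s, ⟨hs1, hs2⟩, hs3⟩ :=
      ((Filter.inter_mem (mem_nhdsWithin_of_mem_nhds h4) (mem_nhdsWithin_of_mem_nhds h5) :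
        _ ∈ 𝓝[≠] t) |> fun h => (Filter.nonempty_of_mem (Filter.inter_mem h h6)))
    obtain ⟨z, hz1, hz2⟩ := hs1
    have hsT : s ∈ T' := by
      by_contra h
      exact hs3 ⟨hs2, h⟩
    exact hz1 (hroots s hsT z hz2)
  refine ⟨A, w, hw, by omega, by rw [hA]; exact hPG, htr, ?_, hwr⟩
  intro N E hE hreal
  obtain ⟨U, V, hUV, hV, hid⟩ := mem_adjoin_coprime (hΘ N E hE hreal)
  refine ⟨U, V, hUV, hV, ?_⟩
  refine ι_inj ?_
  rw [map_mul, map_mul, ← aeval_ι, ← aeval_ι, ← hid]
  have := ι_ne hE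
  field_simp

section tr

variable {A : ℝ[X]}

theorem conj_eval (A : ℝ[X]) (z : ℝ) :
    (A.map (algebraMap ℝ ℂ)).eval (z : ℂ) = ((A.eval z : ℝ) : ℂ) := by
  rw [eval_map]
  exact eval₂_at_apply (algebraMap ℝ ℂ) z

/-- the critical points of a totally real polynomial are real -/
theorem TotallyReal.crit (h : TotallyReal A) (hA : 0 < A.natDegree) {v : ℂ}
    (hv : (derivative (A.map (algebraMap ℝ ℂ))).eval v = 0) : v.im = 0 := by
  set G := A.map (algebraMap ℝ ℂ) with hG
  have hGdeg : 0 < G.natDegree := by rwa [hG, natDegree_map]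
  have hG' : derivative G ≠ 0 := by
    rw [Ne, derivative_eq_zero]
    omega
  have h1 : 0 < G.degree := natDegree_pos_iff_degree_pos.1 hGdeg
  have h2 := rootSet_derivative_subset_convexHull_rootSet h1
  have h3 : v ∈ (derivative G).rootSet ℂ := by
    rw [mem_rootSet, coe_aeval_eq_eval]
    exact ⟨hG', hv⟩
  have h4 : convexHull ℝ (G.rootSet ℂ) ⊆ {z : ℂ | z.im = 0} := by
    refine convexHull_min ?_ convex_real
    intro z hz
    rw [mem_rootSet, coe_aeval_eq_eval] at hz
    refine h z 0 (by simp) ?_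
    rw [hz.2, Complex.ofReal_zero]
  exact h4 (h2 h3)

/-- the ramification index of a totally real polynomial at the points with values in `[-1, 1]` -/
theorem TotallyReal.ram (h : TotallyReal A) (hA : 0 < A.natDegree) {v : ℂ} {t : ℝ}
    (hv : (A.map (algebraMap ℝ ℂ)).eval v = (t : ℂ)) (ht : |t| ≤ 1)
    (he : 2 ≤ rootMultiplicity v (A.map (algebraMap ℝ ℂ) - C (t : ℂ))) :
    |t| = 1 ∧ rootMultiplicity v (A.map (algebraMap ℝ ℂ) - C (t : ℂ)) = 2 := by
  set G := A.map (algebraMap ℝ ℂ) with hG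
  have hGdeg : 0 < G.natDegree := by rwa [hG, natDegree_map]
  have hne := ne_const hGdeg (t : ℂ)
  set e := rootMultiplicity v (G - C (t : ℂ)) with hedef
  have hG' : derivative G ≠ 0 := by
    rw [Ne, derivative_eq_zero]
    omega
  have hroot : (G - C (t : ℂ)).IsRoot v := by rw [IsRoot.def, eval_sub, eval_C, hv, sub_self]
  have hcr : (derivative G).eval v = 0 := by
    have h2 := derivative_rootMultiplicity_of_root hroot
    rw [derivative_sub, derivative_C, sub_zero, ← hedef] at h2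
    exact (rootMultiplicity_pos hG').1 (by omega)
  have hvr := h.crit hA hcr
  obtain ⟨U, hU, hUv⟩ := exists_eq_pow_rootMultiplicity_mul_and_not_dvd _ hne v
  rw [← hedef] at hU
  have key : ¬ (|t| < 1 ∨ (|t| = 1 ∧ 2 * 1 ≠ e)) := by
    intro hcase
    refine no_pole (V := X - C v) (V1 := 1) (p := 1) (h := fun b => (b - v)⁻¹) (c := 1) hU
      (fun h0 => hUv (dvd_iff_isRoot.2 h0)) (by ring) (by rw [eval_one]; exact one_ne_zero)
      one_pos (by omega) one_ne_zero ?_ ?_ hcase
    · refine tendsto_const_nhds.congr' ?_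
      filter_upwards [self_mem_nhdsWithin] with b hb
      have hb' : b - v ≠ 0 := sub_ne_zero.2 hb
      rw [eval_sub, eval_X, eval_C, inv_mul_cancel₀ hb']
    · refine Eventually.of_forall fun b s hs hbs => ?_
      have h1 := h b s hs hbs
      have h2 : (b - v).im = 0 := by rw [Complex.sub_im, h1, hvr, sub_zero]
      rw [← Complex.conj_eq_iff_im, map_inv₀, Complex.conj_eq_iff_im.2 h2]
  by_cases h1 : |t| < 1
  · exact absurd (Or.inl h1) key
  · have h2 : |t| = 1 := le_antisymm ht (not_lt.1 h1)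
    refine ⟨h2, ?_⟩
    by_contra h3
    exact key (Or.inr ⟨h2, by omega⟩)

end tr

end Pool.Agent.Run7.h153.PC
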