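import Pool.Agent.Run7.h153.PC.Pole
import Pool.Agent.N76.SR.Core
set_option autoImplicit false

/-!
The dimension of the space of the locally constant combinations is at most the number of the outer
critical points of a totally real left factor.
-/

namespace Pool.Agent.Run7.h153.PC

open Polynomial Filter Module

open Pool.Agent.Y94.R

open Pool.Agent.N76.SR (TTr NL Loc)

section lin

variable {D : ℂ[X]} {m : ℕ} (γ : Fin m → Lp D)

theorem nF_add (F : ℂ[X][X]) (c c' : Fin m → ℝ) :
    nF (Ic γ (c + c')) F = nF (Ic γ c) F + nF (Ic γ c') F := by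
  refine Polynomial.funext fun b => ?_
  rw [eval_add, nF_eval, nF_eval, nF_eval, Ic_apply, Ic_apply, Ic_apply, ← Finset.sum_add_distrib]
  refine Finset.sum_congr rfl fun l _ => ?_
  rw [Pi.add_apply]
  push_cast
  ring

theorem nF_smul (F : ℂ[X][X]) (a : ℝ) (c : Fin m → ℝ) :
    nF (Ic γ (a • c)) F = C (a : ℂ) * nF (Ic γ c) F := by
  refine Polynomial.funext fun b => ?_
  rw [eval_mul, eval_C, nF_eval, nF_eval, Ic_apply, Ic_apply, Finset.mul_sum]
  refine Finset.sum_congr rfl fun l _ => ?_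
  rw [Pi.smul_apply, smul_eq_mul]
  push_cast
  ring

theorem WW_add (D r n n' R R' : ℂ[X]) : WW D r (n + n') (R + R') = WW D r n R + WW D r n' R' := by
  unfold WW
  rw [derivative_add]
  ring

theorem WW_smul (D r n R : ℂ[X]) (a : ℂ) : WW D r (C a * n) (C a * R) = C a * WW D r n R := by
  unfold WW
  rw [derivative_C_mul]
  ring

/-- the numerator of a combination -/
noncomputable def Num (r : ℂ[X]) (c : Fin m → ℝ) : ℂ[X] :=
  WW D r (nF (Ic γ c) (NN D)) (Rc γ r c)

/-- the numerators as a linear map -/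
noncomputable def Lam (r E : ℂ[X]) : (Fin m → ℝ) →ₗ[ℝ] ℂ[X] where
  toFun c := Num γ r c * E
  map_add' c c' := by
    unfold Num
    rw [nF_add, Rc_add, WW_add, add_mul]
  map_smul' a c := by
    unfold Num
    rw [nF_smul, Rc_smul, WW_smul, RingHom.id_apply, mul_assoc, ← smul_eq_C_mul]
    rfl

/-- the multiples of `r³` by real polynomials in `w` -/
noncomputable def Psi (w r : ℂ[X]) : ℝ[X] →ₗ[ℝ] ℂ[X] where
  toFun B := (B.map (algebraMap ℝ ℂ)).comp w * r ^ 3
  map_add' B B' := by
    rw [Polynomial.map_add, add_comp, add_mul]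
  map_smul' a B := by
    rw [RingHom.id_apply, smul_eq_C_mul, Polynomial.map_mul, map_C, mul_comp, C_comp, mul_assoc,
      ← smul_eq_C_mul]
    rfl

theorem Psi_inj {w r : ℂ[X]} (hw : 0 < w.natDegree) (hr : r ≠ 0) :
    Function.Injective (Psi w r) := by
  rw [injective_iff_map_eq_zero]
  intro B hB
  have h1 : (B.map (algebraMap ℝ ℂ)).comp w * r ^ 3 = 0 := hB
  rcases mul_eq_zero.1 h1 with h2 | h2
  · rcases comp_eq_zero_iff.1 h2 with h3 | h3
    · exact (Polynomial.map_eq_zero_iff (algebraMap ℝ ℂ).injective).1 h3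
    · rw [h3.2, natDegree_C] at hw
      exact absurd hw (lt_irrefl _)
  · exact absurd h2 (pow_ne_zero 3 hr)

end lin

section mult

/-- the product of the linear factors of a multiset -/
noncomputable def pr (M : Multiset ℝ) : ℝ[X] := (M.map fun a => X - C a).prod

theorem pr_map (M : Multiset ℝ) : (pr M).map (algebraMap ℝ ℂ) =
    ((M.map fun a : ℝ => (a : ℂ)).map fun a => X - C a).prod := by
  unfold pr
  rw [Polynomial.map_multiset_prod, Multiset.map_map, Multiset.map_map]
  congr 1
  refine Multiset.map_congr rfl fun a _ => ?_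
  simp

theorem pr_mult [DecidableEq ℝ] (M : Multiset ℝ) (x : ℝ) :
    rootMultiplicity (x : ℂ) ((pr M).map (algebraMap ℝ ℂ)) = M.count x := by
  classical
  rw [← count_roots, pr_map, roots_multiset_prod_X_sub_C]
  exact Multiset.count_map_eq_count' _ _ Complex.ofReal_injective x

theorem pr_map_ne (M : Multiset ℝ) : (pr M).map (algebraMap ℝ ℂ) ≠ 0 := by
  rw [pr_map]
  exact (monic_multisetProd_X_sub_C _).ne_zero

end mult

variable {D P Q r : ℂ[X]} {m : ℕ} (γ : Fin m → Lp D)

open scoped Classical in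
/-- **The dimension of the space of the locally constant combinations.** -/
theorem finrank_NL_le (hD : Squarefree D) (h : Pell D P Q r)
    (hfin : {t : ℝ | |t| < 1 ∧ t ∉ TTr γ P}.Finite)
    (hind : ∀ c : Fin m → ℝ, c ≠ 0 → ∃ j < r.natDegree, Ic γ c (X ^ j) ≠ 0) {k : ℕ}
    (hk : ∀ (A : ℝ[X]) (u : ℂ[X]), P = (A.map (algebraMap ℝ ℂ)).comp u → TotallyReal A →
      outer A ≤ k) : finrank ℝ (NL γ P r) ≤ k := by
  have hr0 := h.r_ne
  have hT := Pool.Agent.N76.SR.CoreAux.TTr_infinite γ hfin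
  have hFne : (KF P (TTr γ P)).NeBot := KF_neBot h.deg hT
  have hFle := KF_le P (TTr γ P)
  obtain ⟨A, w, hw, hA, hPA, htr, hrat, hwr⟩ := exists_coord' h.deg hT hfin
  refine le_trans ?_ (hk A w hPA htr)
  set G := A.map (algebraMap ℝ ℂ) with hG
  have hA' : derivative A ≠ 0 := by
    rw [Ne, derivative_eq_zero]
    omega
  set M : Multiset ℝ := (derivative A).roots.filter fun z => 1 < |A.eval z| with hM
  have hMc : ∀ x : ℝ, 1 < |A.eval x| →
      M.count x = rootMultiplicity (x : ℂ) (derivative G) := by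
    intro x hx
    rw [hM, Multiset.count_filter_of_pos (p := fun z => 1 < |A.eval z|) hx, count_roots, hG,
      derivative_map]
    exact eq_rootMultiplicity_map (algebraMap ℝ ℂ).injective x
  set W : ℝ[X] := pr M ^ 2 * pr M.dedup with hW
  have hWc : W.map (algebraMap ℝ ℂ) = ((pr M).map (algebraMap ℝ ℂ)) ^ 2 *
      (pr M.dedup).map (algebraMap ℝ ℂ) := by
    rw [hW, Polynomial.map_mul, Polynomial.map_pow]
  have hWne : W.map (algebraMap ℝ ℂ) ≠ 0 := by
    rw [hWc]
    exact mul_ne_zero (pow_ne_zero _ (pr_map_ne M)) (pr_map_ne _)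
  have hWm : ∀ x : ℝ, 1 < |A.eval x| → 0 < rootMultiplicity (x : ℂ) (derivative G) →
      rootMultiplicity (x : ℂ) (W.map (algebraMap ℝ ℂ)) =
        2 * rootMultiplicity (x : ℂ) (derivative G) + 1 := by
    intro x hx hpos
    rw [hWc, rootMultiplicity_mul (by rw [← hWc]; exact hWne), rootMultiplicity_pow'
      (pr_map_ne M), pr_mult, pr_mult, Multiset.count_dedup, if_pos, hMc x hx]
    rw [← Multiset.count_pos, hMc x hx]
    exact hpos
  -- the analysis of one combination
  have hR0 : ∀ c : Fin m → ℝ, c ≠ 0 → Rc γ r c ≠ 0 := by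
    intro c hc hR
    obtain ⟨j, hj, hjc⟩ := hind c hc
    exact hjc (functional_zero (Ic γ c) r hr0 hR j hj)
  have hanal : ∀ c ∈ NL γ P r, c ≠ 0 → ∃ U V V' : ℂ[X], IsCoprime U V ∧ V ≠ 0 ∧
      W.map (algebraMap ℝ ℂ) = V * V' ∧ Num γ r c * V.comp w = r ^ 3 * U.comp w := by
    intro c hc hc0
    have hreal : RealOn P (TTr γ P) (Num γ r c) (r ^ 3) := by
      have h1 := Pool.Agent.N76.SR.CoreAux.realTheta γ h hc
      filter_upwards [h1] with b ⟨_, θ, hθ⟩
      exact ⟨θ, by rw [eval_pow]; exact hθ⟩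
    obtain ⟨U, V, hUV, hV, hid⟩ := hrat _ _ (pow_ne_zero 3 hr0) hreal
    have hdvd : V ∣ W.map (algebraMap ℝ ℂ) := by
      rw [IsAlgClosed.dvd_iff_roots_le_roots hV hWne, Multiset.le_iff_count]
      intro z
      rw [count_roots, count_roots]
      by_cases hz0 : rootMultiplicity z V = 0
      · rw [hz0]
        exact Nat.zero_le _
      obtain ⟨β, hβ⟩ := exists_eval_eq hw z
      obtain ⟨h1, h2, h3, h4⟩ := (local_main hD h hw hA hPA htr (hR0 c hc0) hUV hV hid β).1
        (by rwa [hβ])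
      rw [hβ] at h1 h2 h3 h4
      have hzr : z = ((z.re : ℝ) : ℂ) := Complex.ext rfl (by rw [h1, Complex.ofReal_im])
      set x : ℝ := z.re with hx
      rw [hzr] at h3 h4 ⊢
      rw [hWm x h2 h3]
      exact h4
    obtain ⟨V', hV'⟩ := hdvd
    exact ⟨U, V, V', hUV, hV, hV', hid⟩
  -- the linear map
  have hrange : ∀ c : NL γ P r, (Lam γ r ((W.map (algebraMap ℝ ℂ)).comp w) ∘ₗ
      (NL γ P r).subtype) c ∈ LinearMap.range (Psi w r) := by
    rintro ⟨c, hc⟩
    by_cases hc0 : c = 0
    · subst hc0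
      refine ⟨0, ?_⟩
      rw [map_zero]
      exact (map_zero (Lam γ r ((W.map (algebraMap ℝ ℂ)).comp w) ∘ₗ (NL γ P r).subtype)).symm
    obtain ⟨U, V, V', hUV, hV, hV', hid⟩ := hanal c hc hc0
    have e1 : Num γ r c * (W.map (algebraMap ℝ ℂ)).comp w = (U * V').comp w * r ^ 3 := by
      rw [hV', mul_comp, mul_comp, ← mul_assoc, hid]
      ring
    have hBr : (U * V').map (starRingEnd ℂ) = U * V' := by
      refine Polynomial.eq_of_infinite_eval_eq _ _ fun hfin' => ?_
      have h2 : {b | w.eval b ∈ {x | ((U * V').map (starRingEnd ℂ)).eval x =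
          (U * V').eval x}}.Finite := by
        refine Set.Finite.preimage' hfin' fun v _ => ?_
        have h3 := ne_const hw v
        refine (w - C v).roots.toFinset.finite_toSet.subset fun b hb => ?_
        have hb' : w.eval b = v := hb
        simp [h3, hb']
      have h3 : ∀ᶠ b in KF P (TTr γ P), w.eval b ∉ {x | ((U * V').map (starRingEnd ℂ)).eval x =
          (U * V').eval x} := by
        refine Filter.Eventually.filter_mono hFle ?_
        rw [eventually_cofinite]
        refine h2.subset fun b hb => ?_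
        by_contra h
        exact hb h
      have h4 := Pool.Agent.N76.SR.CoreAux.realTheta γ h hc
      obtain ⟨b, hb1, hb2, ⟨hrb, θ, hθ⟩⟩ := (h3.and (hwr.and h4)).exists
      apply hb1
      show ((U * V').map (starRingEnd ℂ)).eval (w.eval b) = (U * V').eval (w.eval b)
      rw [eval_conj_of_real _ hb2, Complex.conj_eq_iff_im]
      have e2 := congrArg (Polynomial.eval b) e1
      rw [eval_mul, eval_mul, eval_comp, eval_comp, eval_pow] at e2
      have e3 : (Num γ r c).eval b = θ * r.eval b ^ 3 := hθ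
      have hwb : w.eval b = (((w.eval b).re : ℝ) : ℂ) := Complex.ext rfl (by
        rw [hb2, Complex.ofReal_im])
      have e4 : (W.map (algebraMap ℝ ℂ)).eval (w.eval b) = ((W.eval (w.eval b).re : ℝ) : ℂ) := by
        conv_lhs => rw [hwb]
        exact conj_eval W _
      rw [e3, e4] at e2
      have e5 : (U * V').eval (w.eval b) = ((θ * W.eval (w.eval b).re : ℝ) : ℂ) := by
        refine mul_right_cancel₀ (pow_ne_zero 3 hrb) ?_
        rw [← e2]
        push_cast
        ring
      rw [e5, Complex.ofReal_im]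
    have hlift : U * V' ∈ lifts (algebraMap ℝ ℂ) := by
      rw [lifts_iff_coeff_lifts]
      intro n
      have h3 := congrArg (fun p => p.coeff n) hBr
      simp only [coeff_map] at h3
      exact ⟨((U * V').coeff n).re, (Complex.conj_eq_iff_re.1 h3)⟩
    obtain ⟨B, hB⟩ := (mem_lifts _).1 hlift
    refine ⟨B, ?_⟩
    show (B.map (algebraMap ℝ ℂ)).comp w * r ^ 3 = Num γ r c * (W.map (algebraMap ℝ ℂ)).comp w
    rw [e1, hB]
  set Φ := LinearMap.codRestrictOfInjective (Lam γ r ((W.map (algebraMap ℝ ℂ)).comp w) ∘ₗ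
      (NL γ P r).subtype) (Psi w r) (Psi_inj hw hr0) hrange with hΦ
  have hΦe : ∀ c : NL γ P r, ((Φ c).map (algebraMap ℝ ℂ)).comp w * r ^ 3 =
      Num γ r c * (W.map (algebraMap ℝ ℂ)).comp w := by
    intro c
    have h1 : Psi w r (Φ c) = (Lam γ r ((W.map (algebraMap ℝ ℂ)).comp w) ∘ₗ
      (NL γ P r).subtype) c := LinearMap.codRestrictOfInjective_comp_apply _ _ _ _ c
    exact h1
  have hmon : (pr M).Monic := monic_multisetProd_X_sub_C M
  have hdegM : (pr M).natDegree = Multiset.card M := natDegree_multiset_prod_X_sub_C_eq_card M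
  have hmem : ∀ c : NL γ P r, (modByMonicHom (pr M) ∘ₗ Φ) c ∈ degreeLT ℝ (Multiset.card M) := by
    intro c
    rw [mem_degreeLT]
    have h1 := degree_modByMonic_lt (Φ c) hmon
    rw [degree_eq_natDegree hmon.ne_zero, hdegM] at h1
    exact h1
  set L := (degreeLTEquiv ℝ (Multiset.card M)).toLinearMap ∘ₗ
    (modByMonicHom (pr M) ∘ₗ Φ).codRestrict (degreeLT ℝ (Multiset.card M)) hmem with hL
  have hLinj : Function.Injective L := by
    rw [← LinearMap.ker_eq_bot, LinearMap.ker_eq_bot']
    rintro ⟨c, hc⟩ hLc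
    by_contra hne
    have hc0 : c ≠ 0 := fun h0 => hne (Subtype.ext h0)
    have h1 : (modByMonicHom (pr M) ∘ₗ Φ).codRestrict (degreeLT ℝ (Multiset.card M)) hmem
        ⟨c, hc⟩ = 0 := (degreeLTEquiv ℝ (Multiset.card M)).map_eq_zero_iff.1 hLc
    have h2 : (modByMonicHom (pr M)) (Φ ⟨c, hc⟩) = 0 := congrArg Subtype.val h1
    have hdvd : pr M ∣ Φ ⟨c, hc⟩ := (mem_ker_modByMonic hmon).1 (LinearMap.mem_ker.2 h2)
    obtain ⟨U, V, V', hUV, hV, hV', hid⟩ := hanal c hc hc0
    have e1 : Num γ r c * (W.map (algebraMap ℝ ℂ)).comp w = (U * V').comp w * r ^ 3 := by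
      rw [hV', mul_comp, mul_comp, ← mul_assoc, hid]
      ring
    have hB : (Φ ⟨c, hc⟩).map (algebraMap ℝ ℂ) = U * V' := by
      have e2 := hΦe ⟨c, hc⟩
      rw [e1] at e2
      have e3 := mul_right_cancel₀ (pow_ne_zero 3 hr0) e2
      have e4 : ((Φ ⟨c, hc⟩).map (algebraMap ℝ ℂ) - U * V').comp w = 0 := by
        rw [sub_comp, e3, sub_self]
      rcases comp_eq_zero_iff.1 e4 with h5 | h5
      · exact sub_eq_zero.1 h5
      · rw [h5.2, natDegree_C] at hw
        exact absurd hw (lt_irrefl _)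
    -- a pole of `R / r`
    obtain ⟨β, hβ⟩ : ∃ β, rootMultiplicity β (Rc γ r c) < rootMultiplicity β r := by
      by_contra hcon
      push Not at hcon
      have h3 : r ∣ Rc γ r c := by
        rw [IsAlgClosed.dvd_iff_roots_le_roots hr0 (hR0 c hc0), Multiset.le_iff_count]
        intro a
        rw [count_roots, count_roots]
        exact hcon a
      exact hR0 c hc0 (Polynomial.eq_zero_of_dvd_of_degree_lt h3 (RR_degree _ _ hr0))
    obtain ⟨k1, k2⟩ := local_main hD h hw hA hPA htr (hR0 c hc0) hUV hV hid β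
    have k3 := k2 hβ
    obtain ⟨k4, k5, k6, k7⟩ := k1 (by omega)
    have hzr : w.eval β = (((w.eval β).re : ℝ) : ℂ) := Complex.ext rfl (by
      rw [k4, Complex.ofReal_im])
    set x : ℝ := (w.eval β).re with hx
    rw [hzr, ← hG] at k3 k6 k7
    have hUne : U ≠ 0 := by
      rintro rfl
      rw [isCoprime_zero_left] at hUV
      have h5 := (rootMultiplicity_pos hV).1 (show 0 < rootMultiplicity (x : ℂ) V by omega)
      obtain ⟨κ, hκ, hκ2⟩ := isUnit_iff.1 hUV
      rw [← hκ2, IsRoot.def, eval_C] at h5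
      exact hκ.ne_zero h5
    have hV'ne : V' ≠ 0 := by
      rintro rfl
      rw [mul_zero] at hV'
      exact hWne hV'
    have m1 := hWm x k5 k6
    rw [hV', rootMultiplicity_mul (by rw [← hV']; exact hWne)] at m1
    have m2 : rootMultiplicity (x : ℂ) U = 0 := by
      refine rootMultiplicity_eq_zero fun hr => ?_
      exact isCoprime_eval hUV hr ((rootMultiplicity_pos hV).1
        (show 0 < rootMultiplicity (x : ℂ) V by omega))
    have m3 : rootMultiplicity (x : ℂ) (derivative G) ≤ rootMultiplicity (x : ℂ) (U * V') := by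
      rw [← hB, ← hMc x k5, ← pr_mult M x]
      obtain ⟨q, hq⟩ := hdvd
      have hne2 : (Φ ⟨c, hc⟩).map (algebraMap ℝ ℂ) ≠ 0 := by
        rw [hB]
        exact mul_ne_zero hUne hV'ne
      have e5 : (Φ ⟨c, hc⟩).map (algebraMap ℝ ℂ) = (pr M).map (algebraMap ℝ ℂ) *
          q.map (algebraMap ℝ ℂ) := by
        rw [← Polynomial.map_mul, ← hq]
      rw [e5, rootMultiplicity_mul (by rw [← e5]; exact hne2)]
      exact Nat.le_add_right _ _
    rw [rootMultiplicity_mul (mul_ne_zero hUne hV'ne), m2, zero_add] at m3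
    omega
  have hfr := LinearMap.finrank_le_finrank_of_injective hLinj
  rw [finrank_fin_fun] at hfr
  exact hfr

end Pool.Agent.Run7.h153.PC
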