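import Pool.Agent.Run7.h153.PC.Core
set_option autoImplicit false

/-!
The defect of a polynomial: the largest number of outer critical points of a totally real left
factor.
-/

namespace Pool.Agent.Run7.h153.PC

open Polynomial Filter Module

open Pool.Agent.Y94.R

open Pool.Agent.N76.SR (TTr NL Loc)

/-- The defect of `P`: the largest number of the critical points at which `|A| > 1` (with
multiplicities), for the totally real polynomials `A` with `P = A ∘ u`. -/
noncomputable def defect (P : ℂ[X]) : ℕ :=
  sSup {n | ∃ (A : ℝ[X]) (u : ℂ[X]), P = (A.map (algebraMap ℝ ℂ)).comp u ∧ TotallyReal A ∧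
    outer A = n}

variable {D P Q r : ℂ[X]}

open scoped Classical in
/-- the defect is at most the number of the zeros of `r` at which `P` is real and `|P| > 1` -/
theorem outer_le (h : Pell D P Q r) {A : ℝ[X]} {u : ℂ[X]}
    (hPA : P = (A.map (algebraMap ℝ ℂ)).comp u) :
    outer A ≤ Multiset.card (r.roots.filter fun β =>
      (P.eval β).im = 0 ∧ 1 < |(P.eval β).re|) := by
  set G := A.map (algebraMap ℝ ℂ) with hG
  have hdeg : P.natDegree = G.natDegree * u.natDegree := by
    conv_lhs => rw [hPA]
    exact natDegree_comp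
  have hP := h.deg
  have hGdeg : 0 < G.natDegree := Nat.pos_of_ne_zero fun h0 => by
    rw [h0, zero_mul] at hdeg
    omega
  have hu : 0 < u.natDegree := Nat.pos_of_ne_zero fun h0 => by
    rw [h0, mul_zero] at hdeg
    omega
  have hG' : derivative G ≠ 0 := by
    rw [Ne, derivative_eq_zero]
    omega
  have hch : ∀ x : ℝ, ∃ β : ℂ, u.eval β = x := fun x => exists_eval_eq hu x
  choose f hf using hch
  have hfinj : Function.Injective f := fun x y hxy => by
    have h1 := hf x
    rw [hxy, hf y] at h1
    exact_mod_cast h1.symm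
  unfold outer
  rw [← Multiset.card_map f]
  refine Multiset.card_le_card (Multiset.le_iff_count.2 fun β => ?_)
  by_cases hβ : β ∈ Multiset.map f ((derivative A).roots.filter fun z => 1 < |A.eval z|)
  · obtain ⟨x, hx, rfl⟩ := Multiset.mem_map.1 hβ
    have hx1 : 1 < |A.eval x| := (Multiset.mem_filter.1 hx).2
    have hPx : P.eval (f x) = ((A.eval x : ℝ) : ℂ) := by
      rw [hPA, eval_comp, hf]
      exact conj_eval A x
    rw [Multiset.count_map_eq_count' f _ hfinj,
      Multiset.count_filter_of_pos (p := fun z => 1 < |A.eval z|) hx1,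
      Multiset.count_filter_of_pos (p := fun β => (P.eval β).im = 0 ∧ 1 < |(P.eval β).re|)
        ⟨by rw [hPx, Complex.ofReal_im], by rw [hPx, Complex.ofReal_re]; exact hx1⟩,
      count_roots, count_roots]
    have e1 : rootMultiplicity x (derivative A) = rootMultiplicity (x : ℂ) (derivative G) := by
      rw [hG, derivative_map]
      exact eq_rootMultiplicity_map (algebraMap ℝ ℂ).injective x
    have hsq : P.eval (f x) ^ 2 ≠ 1 := by
      rw [hPx]
      intro h1
      have h2 : (A.eval x) ^ 2 = 1 := by exact_mod_cast h1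
      rw [← sq_abs] at h2
      nlinarith
    have hQ : rootMultiplicity (f x) Q = 0 := rootMultiplicity_eq_zero (h.ne_of_sq_ne hsq).2
    have e2 := h.mult (f x)
    rw [hQ, add_zero] at e2
    have hGx : G.eval (x : ℂ) = P.eval (f x) := by rw [hPA, eval_comp, hf]
    have hGne := ne_const hGdeg (G.eval (x : ℂ))
    have e3 : P - C (P.eval (f x)) = (G - C (G.eval (x : ℂ))).comp u := by
      rw [sub_comp, C_comp, ← hPA, hGx]
    have e4 : rootMultiplicity (x : ℂ) (G - C (G.eval (x : ℂ))) =
        rootMultiplicity (x : ℂ) (derivative G) + 1 := by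
      have hroot : (G - C (G.eval (x : ℂ))).IsRoot (x : ℂ) := by
        rw [IsRoot.def, eval_sub, eval_C, sub_self]
      have h2 := derivative_rootMultiplicity_of_root hroot
      rw [derivative_sub, derivative_C, sub_zero] at h2
      have h3 := (rootMultiplicity_pos hGne).2 hroot
      omega
    rw [e3, comp_mult hu hGne, hf, e4] at e2
    have e5 : 0 < rootMultiplicity (f x) (u - C (x : ℂ)) := by
      refine (rootMultiplicity_pos (ne_const hu _)).2 ?_
      rw [IsRoot.def, eval_sub, eval_C, hf, sub_self]
    rw [e1]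
    have e6 : (rootMultiplicity (x : ℂ) (derivative G) + 1) * 1 ≤
        (rootMultiplicity (x : ℂ) (derivative G) + 1) *
          rootMultiplicity (f x) (u - C (x : ℂ)) := Nat.mul_le_mul_left _ e5
    omega
  · rw [Multiset.count_eq_zero_of_notMem hβ]
    exact Nat.zero_le _

theorem bddAbove (h : Pell D P Q r) : BddAbove {n | ∃ (A : ℝ[X]) (u : ℂ[X]),
    P = (A.map (algebraMap ℝ ℂ)).comp u ∧ TotallyReal A ∧ outer A = n} := by
  classical
  refine ⟨Multiset.card (r.roots.filter fun β =>
      (P.eval β).im = 0 ∧ 1 < |(P.eval β).re|), ?_⟩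
  rintro n ⟨A, u, h1, -, rfl⟩
  exact outer_le h h1

theorem outer_le_defect (h : Pell D P Q r) {A : ℝ[X]} {u : ℂ[X]}
    (hPA : P = (A.map (algebraMap ℝ ℂ)).comp u) (hA : TotallyReal A) : outer A ≤ defect P :=
  le_csSup (bddAbove h) ⟨A, u, hPA, hA, rfl⟩

open scoped Classical in
theorem defect_le (h : Pell D P Q r) : defect P ≤ Multiset.card (r.roots.filter fun β =>
      (P.eval β).im = 0 ∧ 1 < |(P.eval β).re|) := by
  unfold defect
  by_cases hne : {n | ∃ (A : ℝ[X]) (u : ℂ[X]), P = (A.map (algebraMap ℝ ℂ)).comp u ∧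
      TotallyReal A ∧ outer A = n}.Nonempty
  · refine csSup_le hne ?_
    rintro n ⟨A, u, h1, -, rfl⟩
    exact outer_le h h1
  · rw [Set.not_nonempty_iff_eq_empty] at hne
    rw [hne, csSup_empty]
    exact Nat.zero_le _

end Pool.Agent.Run7.h153.PC
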