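import Pool.Agent.Run7.h153.PC.Defect
import Pool.Agent.N76.SR.All

set_option autoImplicit false

/-!
The points, the embeddings and the rank (adapted from `Pool/Agent/N76/SR/Fin.lean`)
-/

namespace Pool.Agent.Run7.h153.PC

open Polynomial MeasureTheory Set Filter Topology Module
open Pool.Agent.Y94.R
open Pool.Agent.N76.SR
open Pool.Agent.Y775.CC (uu uu_one)
open Pool.Agent.N76.IR (exists_embedding')
open Pool.Agent.N76.EC (exists_point map_cheb' uu_cos cheb_cos)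
open scoped Real

/-- `Pool.Agent.N76.SR.main` with bounds for the spaces `NL` -/
theorem main' (hINT : S_INT) (hLIN : S_LIN) (hCPL : S_CPL) {m M g : ℕ} (hm : 0 < m) {K : Type*}
    [Field K] [NumberField K] {D P Q r : K[X]} (hPQ : P ^ 2 - D * Q ^ 2 = 1) (hr : derivative P = r * Q)
    (hdeg : 0 < P.natDegree) (hD : Squarefree D) (hDg : D.natDegree = 2 * g + 2)
    (σ : Fin m → (K →+* ℂ)) (γ : ∀ a, Fin M → Lp (D.map (σ a)))
    (hind : ∀ a, LinearIndependent ℝ fun (l : Fin M) (j : Fin g) =>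
      ∫ t in (0 : ℝ)..1, (γ a l).x t ^ (j : ℕ) * deriv (γ a l).x t / (γ a l).y t)
    (hfin : ∀ a, {t : ℝ | |t| < 1 ∧ ∃ l s, (P.map (σ a)).eval ((γ a l).x s) = ((t : ℝ) : ℂ)}.Finite)
    {p : ℕ} (hp : 2 ≤ p) {R : ℕ} (hR : R + ∑ a, defect (P.map (σ a)) = m * M) :
    ∃ N₀ : ℕ, ∀ N : ℕ, N₀ ≤ N → N.Coprime p → N.Coprime (NumberField.discr K).natAbs →
      ∀ (L : Type*) [Field L] [NumberField L] [Algebra K L],
      ((Chebyshev.C L N).comp (C 2 * P.map (algebraMap K L)) - C 2).Splits →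
      ∀ s₀ : L →+* ℂ, s₀.comp (algebraMap K L) = σ ⟨0, hm⟩ →
      ∃ (s : Fin m → (L →+* ℂ)) (b : Fin (R + 1) → L),
        s ⟨0, hm⟩ = s₀ ∧
        (∀ i, (Chebyshev.C L N).eval ((C 2 * P.map (algebraMap K L)).eval (b i)) = 2) ∧
        (∀ a, (s a).comp (algebraMap K L) = σ a) ∧
        (∀ a l i, (γ a l).Off (s a (b i))) ∧
        LinearIndependent ℝ fun (j : Fin R) (a : Fin m) (l : Fin M) =>
          (γ a l).rho (P.map (σ a)) (Q.map (σ a)) (s a (b j.succ)) -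
            (γ a l).rho (P.map (σ a)) (Q.map (σ a)) (s a (b 0)) := by
  classical
  have hπ := Real.pi_pos
  have hpell : ∀ a, Pell (D.map (σ a)) (P.map (σ a)) (Q.map (σ a)) (r.map (σ a)) := fun a =>
    ⟨by rw [← Polynomial.map_pow, ← Polynomial.map_pow, ← Polynomial.map_mul, ← Polynomial.map_sub, hPQ,
        Polynomial.map_one], by rw [derivative_map, hr, Polynomial.map_mul], by rwa [natDegree_map]⟩
  have hDa : ∀ a, Squarefree (D.map (σ a)) := fun a =>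
    ((PerfectField.separable_iff_squarefree.2 hD).map (f := σ a)).squarefree
  have hTf : ∀ a, {t : ℝ | |t| < 1 ∧ t ∉ TTr (γ a) (P.map (σ a))}.Finite := fun a =>
    TTr_cofinite (γ a) (hpell a).deg (hfin a)
  have hT : ∀ a, (TTr (γ a) (P.map (σ a))).Nonempty := fun a => TTr_nonempty (γ a) (hTf a)
  have hcore : ∀ a, finrank ℝ (NL (γ a) (P.map (σ a)) (r.map (σ a))) ≤
      defect (P.map (σ a)) := fun a => by
    refine finrank_NL_le (γ a) (hDa a) (hpell a) (hTf a) (fun c hc => ?_)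
      (fun A u h1 h2 => outer_le_defect (hpell a) h1 h2)
    rw [(hpell a).natDegree_r (g := g) (by rw [natDegree_map, hDg])]
    exact periods (γ a) (hind a) c hc
  obtain ⟨V, hV1, hV2⟩ := hCPL (fun a => NL (γ a) (P.map (σ a)) (r.map (σ a))) (R := R) (by
    rw [← hR]
    exact Nat.add_le_add_left (Finset.sum_le_sum fun a _ => hcore a) _)
  set n := P.natDegree with hn
  obtain ⟨κ, N₁, hN₁⟩ := hINT (n := n) γ hpell (fun a => natDegree_map _) hdeg hT V hV2 hp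
  refine ⟨N₁ + 1, fun N hN hNp hNd L _ _ _ hsplit s₀ hs₀ => ?_⟩
  have hN0 : 0 < N := by omega
  have : NeZero N := ⟨hN0.ne'⟩
  have hgood := hN₁ N (by omega)
  set T : ℕ := p ^ κ with hTdef
  have hTN : ∀ a : ℕ, (T ^ a).Coprime N := fun a =>
    Nat.Coprime.pow_left _ (Nat.Coprime.pow_left _ hNp.symm)
  set F' : L[X] := C 2 * P.map (algebraMap K L) with hF'
  -- the embeddings
  have hemb : ∀ a : Fin m, ∃ s : L →+* ℂ, s.comp (algebraMap K L) = σ a ∧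
      (∀ (y : L) (j : ℤ), s₀ y = uu 1 ((j : ℝ) / N) → s y = uu 1 (((T ^ (a : ℕ) : ℕ) : ℝ) * ((j : ℝ) / N))) ∧
      (a = ⟨0, hm⟩ → s = s₀) := by
    intro a
    by_cases ha : a = ⟨0, hm⟩
    · refine ⟨s₀, by rw [ha, hs₀], fun y j hy => ?_, fun _ => rfl⟩
      rw [ha, pow_zero, Nat.cast_one, one_mul, hy]
    · obtain ⟨s, h1, h2⟩ := exists_embedding' s₀ (σ a) hNd (hTN a)
      exact ⟨s, h1, h2, fun h => absurd h ha⟩
  choose s hs1 hs2 hs3 using hemb
  have hFs : ∀ (s' : L →+* ℂ) (a : Fin m), s'.comp (algebraMap K L) = σ a → F'.map s' = C 2 * P.map (σ a) := by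
    intro s' a h
    rw [hF', Polynomial.map_mul, Polynomial.map_map, h, Polynomial.map_C, map_ofNat]
  have hdeg' : 0 < F'.natDegree := by
    rw [hF', natDegree_C_mul two_ne_zero, natDegree_map]
    exact hdeg
  -- the fibres
  set Ω := {q : ℤ × (Fin m → ℤ) // ∀ a, Real.cos (2 * π * (((T : ℕ) : ℝ) ^ (a : ℕ) * ((q.1 : ℝ) / N) - q.2 a)) ∈
    TTr (γ a) (P.map (σ a))} with hΩ
  set y : Ω → Fin m → ℝ := fun ω a => ((T : ℕ) : ℝ) ^ (a : ℕ) * ((ω.1.1 : ℝ) / N) - ω.1.2 a with hy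
  have hyT : ∀ (ω : Ω) (a : Fin m), Real.cos (2 * π * y ω a) ∈ TTr (γ a) (P.map (σ a)) := fun ω a => ω.2 a
  have hycos : ∀ (ω : Ω) (a : Fin m), uu 1 (((T : ℕ) : ℝ) ^ (a : ℕ) * ((ω.1.1 : ℝ) / N)) =
      2 * ((Real.cos (2 * π * y ω a) : ℝ) : ℂ) := by
    intro ω a
    rw [uu_cos]
    have e : ((2 * π * (((T : ℕ) : ℝ) ^ (a : ℕ) * ((ω.1.1 : ℝ) / N)) : ℝ) : ℂ) =
        ((2 * π * y ω a : ℝ) : ℂ) + (ω.1.2 a) * (2 * π) := by
      rw [hy]
      push_cast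
      ring
    rw [e, Complex.cos_add_int_mul_two_pi, Complex.ofReal_cos]
  have hy0 : ∀ ω, 2 * ((Real.cos (2 * π * y ω ⟨0, hm⟩) : ℝ) : ℂ) = uu 1 ((ω.1.1 : ℝ) / N) := by
    intro ω
    rw [← hycos ω ⟨0, hm⟩, pow_zero, one_mul]
  have hfib : ∀ ω : Ω, ∃ x : Fin n → ℂ, Function.Injective x ∧
      ∀ i, (P.map (σ ⟨0, hm⟩)).eval (x i) = ((Real.cos (2 * π * y ω ⟨0, hm⟩) : ℝ) : ℂ) := fun ω =>
    exists_fib (natDegree_map _) hdeg fun b hb => ((hyT ω ⟨0, hm⟩).2 b hb).1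
  choose x hx1 hx2 using hfib
  have hpt : ∀ (ω : Ω) (l : Fin n), ∃ b : L, s₀ b = x ω l := by
    intro ω l
    refine exists_point hdeg' hN0 hsplit ?_
    rw [hFs s₀ _ hs₀, eval_mul, eval_C, hx2, hy0, uu_cos, cheb_cos hN0]
  choose b hb using hpt
  have hbinj : ∀ ω, Function.Injective (b ω) := by
    intro ω l l' h1
    refine hx1 ω ?_
    rw [← hb, ← hb, h1]
  have hFb : ∀ ω l, s₀ (F'.eval (b ω l)) = uu 1 ((ω.1.1 : ℝ) / N) := fun ω l => by
    have h1 : (F'.map s₀).eval (s₀ (b ω l)) = s₀ (F'.eval (b ω l)) := by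
      rw [eval_map, eval₂_hom]
    rw [← h1, hb, hFs s₀ _ hs₀, eval_mul, eval_C, hx2, hy0]
  have hPb : ∀ ω (a : Fin m) l, (P.map (σ a)).eval (s a (b ω l)) = ((Real.cos (2 * π * y ω a) : ℝ) : ℂ) := by
    intro ω a l
    have h1 : (F'.map (s a)).eval (s a (b ω l)) = s a (F'.eval (b ω l)) := by
      rw [eval_map, eval₂_hom]
    rw [hs2 a _ ω.1.1 (hFb ω l), Nat.cast_pow, hycos, hFs (s a) a (hs1 a), eval_mul, eval_C] at h1
    exact mul_left_cancel₀ two_ne_zero h1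
  set v : Ω × Fin n → Fin m → Fin M → ℝ := fun q a l =>
    (γ a l).rho (P.map (σ a)) (Q.map (σ a)) (s a (b q.1 q.2)) with hv
  -- a base point
  obtain ⟨ω₀⟩ : Nonempty Ω := by
    obtain ⟨j, i, h1, -⟩ := hgood (0, 1) V.zero_mem (by
      intro h
      have := congrArg Prod.snd h
      simp at this)
    exact ⟨⟨(j, i), h1⟩⟩
  obtain ⟨β, hβ⟩ := hLIN v (ω₀, ⟨0, hdeg⟩) V hV1 (fun c hcV hc => by
    by_contra hc0
    set k₀ : ℝ := ∑ a, ∑ l, c a l * v (ω₀, ⟨0, hdeg⟩) a l with hk₀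
    obtain ⟨j, i, h1, h2⟩ := hgood (c, k₀) hcV (fun h => hc0 (congrArg Prod.fst h))
    set ω : Ω := ⟨(j, i), h1⟩ with hω
    obtain ⟨k, hk⟩ := h2 (fun a l => s a (b ω l)) (fun a => (s a).injective.comp (hbinj ω)) (fun a l => hPb ω a l)
    apply hk
    have h3 := hc (ω, k)
    simp only [mul_sub, Finset.sum_sub_distrib] at h3
    show Lk γ _ _ c _ k = k₀
    unfold Lk
    rw [hk₀]
    exact sub_eq_zero.1 h3)
  set Y : Fin (R + 1) → Ω × Fin n := Fin.cons (ω₀, ⟨0, hdeg⟩) β with hY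
  refine ⟨s, fun i => b (Y i).1 (Y i).2, hs3 _ rfl, fun i => ?_, hs1, fun a l i => ?_, ?_⟩
  · apply s₀.injective
    rw [map_cheb', hFb, uu_cos, cheb_cos hN0, map_ofNat]
  · exact ((hyT (Y i).1 a).2 _ (hPb (Y i).1 a (Y i).2)).2 l
  · exact hβ

/-- `Pool.Agent.N76.SR.all_` with the defects -/
theorem all'.{u, v, w} (g m M R : ℕ) (hm : 0 < m) (K : Type u) [Field K] [NumberField K] (D P Q r : K[X])
    (hD : Squarefree D) (hdeg : D.natDegree = 2 * g + 2) (hPQ : P ^ 2 - D * Q ^ 2 = 1) (hP : 0 < P.natDegree)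
    (hr : derivative P = r * Q) (hmon : (C 2 * P).Monic) (hint : ∀ i, IsIntegral ℤ ((C 2 * P).coeff i))
    (σ : Fin m → (K →+* ℂ)) (γ : ∀ a, Fin M → Lp (D.map (σ a)))
    (hind : ∀ a, LinearIndependent ℝ fun (l : Fin M) (j : Fin g) =>
      ∫ t in (0 : ℝ)..1, (γ a l).x t ^ (j : ℕ) * deriv (γ a l).x t / (γ a l).y t)
    (hfin : ∀ a, {τ : ℝ | |τ| < 1 ∧ ∃ l t, (P.map (σ a)).eval ((γ a l).x t) = ((τ : ℝ) : ℂ)}.Finite)
    (hR : R + ∑ a, defect (P.map (σ a)) = m * M)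
    (p : ℕ) (hp : 2 ≤ p) :
    ∃ N₀ : ℕ, ∀ N : ℕ, N₀ ≤ N → N.Coprime p → N.Coprime (NumberField.discr K).natAbs →
      ∀ (L : Type v) [Field L] [NumberField L] [Algebra K L],
      ((Chebyshev.C L N).comp (C 2 * P.map (algebraMap K L)) - C 2).Splits →
      IsDomain (HRing (D.map (algebraMap K L))) ∧
      (∀ (s : L →+* ℂ) (x y : ℂ), y ^ 2 = (D.map (algebraMap K L)).eval₂ s x →
        2 * y ≠ 0 ∨ (derivative (D.map (algebraMap K L))).eval₂ s x ≠ 0) ∧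
      ∀ s₁ : L →+* ℂ, s₁.comp (algebraMap K L) = σ ⟨0, hm⟩ →
      ∃ (hPQL : (P.map (algebraMap K L)) ^ 2 - D.map (algebraMap K L) * (Q.map (algebraMap K L)) ^ 2 = 1)
        (s : Fin m → (L →+* ℂ)) (b : Fin (R + 1) → L),
        s ⟨0, hm⟩ = s₁ ∧
        (∀ a, (s a).comp (algebraMap K L) = σ a) ∧
        (∀ i, (Chebyshev.C L N).eval ((C 2 * P.map (algebraMap K L)).eval (b i)) = 2) ∧
        UnramifiedSymbols.{v, w} hPQL b ∧
        IndependentRegulators hPQL s (fun a l => (γ a l).x) (fun a l => (γ a l).y) b := by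
  have hGOOD : Pool.Agent.N76.SR.S_GOOD := Pool.Agent.N76.SR.good Pool.Agent.N76.SR.der
  have hOPEN : Pool.Agent.N76.SR.S_OPEN := Pool.Agent.N76.SR.opn Pool.Agent.N76.SR.sec Pool.Agent.N76.SR.rho_cont
  obtain ⟨N₀, hN₀⟩ := main' (Pool.Agent.N76.SR.int_ hGOOD hOPEN)
    Pool.Agent.N76.SR.lin Pool.Agent.N76.SR.cpl hm hPQ hr hP hD hdeg σ γ hind hfin hp (R := R) hR
  refine ⟨N₀ + 1, fun N hN hNp hNd L _ _ _ hsplit => ?_⟩
  have hN1 : 0 < N := by omega
  have hDL : Squarefree (D.map (algebraMap K L)) :=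
    ((PerfectField.separable_iff_squarefree.2 hD).map (f := algebraMap K L)).squarefree
  have hdegL : 0 < (D.map (algebraMap K L)).natDegree := by
    rw [natDegree_map, hdeg]
    omega
  refine ⟨isDomain_HRing hDL hdegL, fun s x y h => Pool.Agent.N76.SR.smooth hDL s x y h, fun s₁ hs₁ => ?_⟩
  obtain ⟨s, b, hs0, hb, hs, hoffb, hli⟩ := hN₀ N (by omega) hNp hNd L hsplit s₁ hs₁
  have hPQL : (P.map (algebraMap K L)) ^ 2 - D.map (algebraMap K L) * (Q.map (algebraMap K L)) ^ 2 = 1 := by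
    rw [← Polynomial.map_pow, ← Polynomial.map_pow, ← Polynomial.map_mul, ← Polynomial.map_sub, hPQ, Polynomial.map_one]
  have hF : C 2 * P.map (algebraMap K L) = (C 2 * P).map (algebraMap K L) := by
    rw [Polynomial.map_mul, Polynomial.map_C, map_ofNat (algebraMap K L)]
  have hmL : (C 2 * P.map (algebraMap K L)).Monic := by
    rw [hF]
    exact hmon.map _
  have hdL : 0 < (C 2 * P.map (algebraMap K L)).natDegree := by
    rw [natDegree_C_mul two_ne_zero, natDegree_map]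
    exact hP
  have hiL : ∀ i, IsIntegral ℤ ((C 2 * P.map (algebraMap K L)).coeff i) := fun i => by
    rw [hF, coeff_map]
    exact (hint i).map ((algebraMap K L).toIntAlgHom)
  have hsp : ∀ i, ∃ (ζ : ℂ) (k : ℕ), k ≠ 0 ∧ ζ ^ k = 1 ∧
      s₁ ((C 2 * P.map (algebraMap K L)).eval (b i)) = ζ + ζ⁻¹ := fun i =>
    Pool.Agent.N76.EC.special_of_eval s₁ hN1 (hb i)
  have hbi : ∀ i, IsIntegral ℤ (b i) := fun i => by
    obtain ⟨ξ, k, hk, h1, h2⟩ := hsp i
    exact Pool.Agent.N686.PF.isIntegral_special s₁ hmL hdL hiL hk h1 h2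
  have hpell : ∀ a, Pell (D.map (σ a)) (P.map (σ a)) (Q.map (σ a)) (r.map (σ a)) := fun a =>
    ⟨by rw [← Polynomial.map_pow, ← Polynomial.map_pow, ← Polynomial.map_mul, ← Polynomial.map_sub, hPQ,
        Polynomial.map_one], by rw [derivative_map, hr, Polynomial.map_mul], by rwa [natDegree_map]⟩
  refine ⟨hPQL, s, b, hs0, hs, hb, ?_, ?_⟩
  · exact Pool.Agent.N76.SR.unram Pool.Agent.N76.SR.unr hPQL s₁ hDL hdegL hiL hbi hsp
  · exact Pool.Agent.N76.SR.indep_reg (r := r.map (algebraMap K L)) hPQL s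
      (fun a => by rw [Polynomial.map_map, hs]) (fun a => by rw [Polynomial.map_map, hs])
      (fun a => by rw [Polynomial.map_map, hs]) (fun a => by rw [Polynomial.map_map, hs]) hpell γ b hoffb hli

end Pool.Agent.Run7.h153.PC
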