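import Pool.Agent.Run7.h153.PC.Coord
set_option autoImplicit false

/-!
The poles of `(n + D' f / 2 + D f') / r`, `f = R / r`, when it is a rational function of `w`.
-/

namespace Pool.Agent.Run7.h153.PC

open Polynomial

open Pool.Agent.Y94.R

theorem mul_deriv_pow (ξ : ℂ) (m : ℕ) : (X - C ξ) * derivative ((X - C ξ) ^ m) =
    (C (m : ℂ)) * (X - C ξ) ^ m := by
  rw [derivative_X_sub_C_pow]
  rcases m with _ | m
  · simp
  · rw [Nat.add_sub_cancel]
    ring

/-- the order of the numerator at a pole of `R / r` -/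
theorem WW_order {D r n R a b d : ℂ[X]} {β : ℂ} {m j δ : ℕ} (hr : r = (X - C β) ^ m * a)
    (hR : R = (X - C β) ^ j * b) (hD : D = (X - C β) ^ δ * d) (ha : a.eval β ≠ 0)
    (hb : b.eval β ≠ 0) (hd : d.eval β ≠ 0) (hjm : j < m) (hδ : δ ≤ 1) :
    WW D r n R ≠ 0 ∧ rootMultiplicity β (WW D r n R) + 1 = m + j + δ := by
  obtain ⟨k, rfl⟩ := Nat.exists_eq_add_of_lt hjm
  set s : ℂ[X] := X - C β with hs
  have hsβ : s.eval β = 0 := by rw [hs, eval_sub, eval_X, eval_C, sub_self]
  have hd1 : s * derivative r = s ^ (j + k + 1) * (C ((j + k + 1 : ℕ) : ℂ) * a + s * derivative a) := by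
    conv_lhs => rw [hr, derivative_mul, mul_add, ← mul_assoc, mul_deriv_pow]
    ring
  have hd2 : s * derivative R = s ^ j * (C (j : ℂ) * b + s * derivative b) := by
    conv_lhs => rw [hR, derivative_mul, mul_add, ← mul_assoc, mul_deriv_pow]
    ring
  have hd3 : s * derivative D = s ^ δ * (C (δ : ℂ) * d + s * derivative d) := by
    conv_lhs => rw [hD, derivative_mul, mul_add, ← mul_assoc, mul_deriv_pow]
    ring
  obtain ⟨l, hl⟩ : ∃ l, k + 2 = l + 1 + δ := ⟨k + 1 - δ, by omega⟩
  set Q : ℂ[X] := s ^ (l + 1) * n * a ^ 2 + C (1 / 2) * (C (δ : ℂ) * d + s * derivative d) * b * a +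
    d * ((C (j : ℂ) * b + s * derivative b) * a -
      b * (C ((j + k + 1 : ℕ) : ℂ) * a + s * derivative a)) with hQ
  have key : s * WW D r n R = s ^ (j + k + 1 + j + δ) * Q := by
    have e1 : s * WW D r n R = s * n * r ^ 2 + C (1 / 2) * (s * derivative D) * R * r +
        D * ((s * derivative R) * r - R * (s * derivative r)) := by
      unfold WW
      ring
    rw [e1, hd1, hd2, hd3]
    have e2 : s * n * r ^ 2 = s ^ (j + k + 1 + j + δ) * (s ^ (l + 1) * n * a ^ 2) := by
      have e3 : s ^ (j + k + 1 + j + δ) * (s ^ (l + 1) * n * a ^ 2) =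
          s ^ (j + k + 1 + j + (l + 1 + δ)) * n * a ^ 2 := by ring
      rw [e3, ← hl]
      conv_lhs => rw [hr]
      ring
    rw [e2]
    conv_lhs => rw [hR, hr, hD]
    rw [hQ]
    ring
  have hQβ : Q.eval β ≠ 0 := by
    rw [hQ]
    simp only [eval_add, eval_mul, eval_pow, eval_sub, eval_C, hsβ, zero_mul, add_zero]
    rw [zero_pow (Nat.succ_ne_zero l), zero_mul, zero_mul, zero_add]
    have e1 : 1 / 2 * (↑δ * d.eval β) * b.eval β * a.eval β +
        d.eval β * (↑j * b.eval β * a.eval β - b.eval β * (((j + k + 1 : ℕ) : ℂ) * a.eval β)) =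
        (d.eval β * a.eval β * b.eval β) * ((δ : ℂ) / 2 - (k + 1)) := by
      push_cast
      ring
    rw [e1]
    refine mul_ne_zero (mul_ne_zero (mul_ne_zero hd ha) hb) ?_
    rw [sub_ne_zero]
    intro e2
    have e3 : (δ : ℂ) = ((2 * (k + 1) : ℕ) : ℂ) := by
      push_cast
      linear_combination 2 * e2
    have e4 : δ = 2 * (k + 1) := by exact_mod_cast e3
    omega
  have hQ0 : Q ≠ 0 := by
    intro h
    rw [h, eval_zero] at hQβ
    exact hQβ rfl
  have hs0 : s ≠ 0 := X_sub_C_ne_zero β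
  have hne : s ^ (j + k + 1 + j + δ) * Q ≠ 0 := mul_ne_zero (pow_ne_zero _ hs0) hQ0
  have hG0 : WW D r n R ≠ 0 := by
    intro h
    rw [h, mul_zero] at key
    exact hne key.symm
  refine ⟨hG0, ?_⟩
  have h1 := congrArg (rootMultiplicity β) key
  rw [rootMultiplicity_mul (mul_ne_zero hs0 hG0), rootMultiplicity_mul hne, hs,
    rootMultiplicity_X_sub_C_pow, rootMultiplicity_X_sub_C_self,
    rootMultiplicity_eq_zero (p := Q) (x := β) hQβ] at h1
  omega

/-- the order of the numerator if `R / r` has no pole -/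
theorem WW_ge {D r n R : ℂ[X]} {β : ℂ} {m : ℕ} (hr : (X - C β) ^ m ∣ r) (hR : (X - C β) ^ m ∣ R)
    (h0 : WW D r n R ≠ 0) : 2 * m ≤ rootMultiplicity β (WW D r n R) := by
  obtain ⟨a, ha⟩ := hr
  obtain ⟨b, hb⟩ := hR
  rw [le_rootMultiplicity_iff h0, ha, hb, WW_mul, ← pow_mul, mul_comm m 2]
  exact dvd_mul_right _ _

theorem comp_mult {w B : ℂ[X]} (hw : 0 < w.natDegree) (hB : B ≠ 0) (ξ : ℂ) :
    rootMultiplicity ξ (B.comp w) =
      rootMultiplicity (w.eval ξ) B * rootMultiplicity ξ (w - C (w.eval ξ)) := by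
  obtain ⟨b, hb, hb'⟩ := exists_eq_pow_rootMultiplicity_mul_and_not_dvd _ hB (w.eval ξ)
  rw [dvd_iff_isRoot, IsRoot.def] at hb'
  set v := w.eval ξ with hv
  have hne : w - C v ≠ 0 := ne_const hw v
  have h2 : B.comp w = (w - C v) ^ (rootMultiplicity v B) * b.comp w := by
    conv_lhs => rw [hb]
    rw [mul_comp, pow_comp, sub_comp, X_comp, C_comp]
  have h3 : (b.comp w).eval ξ ≠ 0 := by rwa [eval_comp]
  have h4 : b.comp w ≠ 0 := by
    intro h
    rw [h, eval_zero] at h3
    exact h3 rfl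
  rw [h2, rootMultiplicity_mul (mul_ne_zero (pow_ne_zero _ hne) h4), rootMultiplicity_pow' hne,
    rootMultiplicity_eq_zero (p := b.comp w) (x := ξ) h3, add_zero]

variable {D P Q r : ℂ[X]}

/-- the ramification at the points with `P = ± 1` -/
theorem pell_pm (hD : Squarefree D) (h : Pell D P Q r) {β : ℂ} (hβ : P.eval β ^ 2 = 1) :
    rootMultiplicity β (P - C (P.eval β)) = rootMultiplicity β D + 2 * rootMultiplicity β Q := by
  set τ := P.eval β with hτ
  have h2 : P ^ 2 - 1 = (P - C τ) * (P + C τ) := by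
    have h3 : (C τ : ℂ[X]) ^ 2 = 1 := by rw [← C_pow, hβ, C_1]
    linear_combination h3
  have h3 : P ^ 2 - 1 = D * Q ^ 2 := by linear_combination h.eq
  have h4 : (P + C τ).eval β ≠ 0 := by
    rw [eval_add, eval_C, ← hτ]
    intro h5
    have h6 : τ = 0 := by linear_combination (1 / 2) * h5
    rw [h6] at hβ
    norm_num at hβ
  have hDQ : D * Q ^ 2 ≠ 0 := mul_ne_zero hD.ne_zero (pow_ne_zero 2 h.Q_ne)
  have h5 : rootMultiplicity β (P ^ 2 - 1) = rootMultiplicity β (P - C τ) := by
    rw [h2, rootMultiplicity_mul (by rw [← h2, h3]; exact hDQ),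
      rootMultiplicity_eq_zero (p := P + C τ) h4, add_zero]
  rw [← h5, h3, rootMultiplicity_mul hDQ, rootMultiplicity_pow' h.Q_ne]

theorem mult_le_one (hD : Squarefree D) (β : ℂ) : rootMultiplicity β D ≤ 1 := by
  by_contra h8
  have h9 : (X - C β) ^ 2 ∣ D :=
    (pow_dvd_pow _ (by omega)).trans (pow_rootMultiplicity_dvd D β)
  rw [pow_two] at h9
  exact Polynomial.not_isUnit_X_sub_C β (hD _ h9)

/-- the arithmetic of the case `P(β) ^ 2 ≠ 1` -/
theorem arith_a {eG ew m v o j : ℕ} (h1 : eG * ew = m + 1)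
    (hreg : m ≤ j → 2 * m ≤ o) (hpol : j < m → o + 1 = m + j) (hid : o + v * ew = 3 * m)
    (hv : v ≠ 0) : 2 ≤ eG ∧ v ≤ 2 * eG - 1 ∧ (j < m → eG < v) := by
  have hew : 0 < ew := Nat.pos_of_ne_zero fun h => by rw [h, mul_zero] at h1; omega
  rcases Nat.lt_or_ge j m with hjm | hjm
  · have h2 := hpol hjm
    -- `v ew = 2 m + 1 - j`
    have h3 : v * ew + j = 2 * m + 1 := by omega
    have h4 : eG < v := by
      by_contra h5
      have h6 : v * ew ≤ eG * ew := Nat.mul_le_mul_right ew (not_lt.1 h5)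
      omega
    have h5 : v < 2 * eG := by
      by_contra h6
      have h7 : 2 * eG * ew ≤ v * ew := Nat.mul_le_mul_right ew (not_lt.1 h6)
      have h8 : 2 * eG * ew = 2 * (m + 1) := by rw [mul_assoc, h1]
      omega
    exact ⟨by omega, by omega, fun _ => h4⟩
  · have h2 := hreg hjm
    have h3 : v * ew ≤ m := by omega
    have h4 : v < eG := by
      by_contra h5
      have h6 : eG * ew ≤ v * ew := Nat.mul_le_mul_right ew (not_lt.1 h5)
      omega
    exact ⟨by omega, by omega, fun h => absurd h (not_lt.2 hjm)⟩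

/-- the arithmetic of the case `P(β) ^ 2 = 1` -/
theorem arith_b {eG ew m v o j q δ : ℕ} (h1 : eG * ew = m + q + 1) (h2 : eG * ew = δ + 2 * q)
    (hδ : δ ≤ 1) (hG : eG ≤ 2) (hreg : m ≤ j → 2 * m ≤ o) (hpol : j < m → o + 1 = m + j + δ)
    (hid : o + v * ew = 3 * m) (hv : v ≠ 0) : False := by
  have hew : 0 < ew := Nat.pos_of_ne_zero fun h => by rw [h, mul_zero] at h1; omega
  have hv1 : 1 * ew ≤ v * ew := Nat.mul_le_mul_right ew (Nat.one_le_iff_ne_zero.2 hv)
  have hG0 : eG ≠ 0 := by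
    rintro rfl
    rw [zero_mul] at h1
    omega
  have hG12 : eG = 1 ∨ eG = 2 := by omega
  rcases Nat.lt_or_ge j m with hjm | hjm
  · have h3 := hpol hjm
    rcases hG12 with rfl | rfl
    · omega
    · have hδ0 : δ = 0 := by omega
      have hew : ew = q := by omega
      have h4 : 1 < v := by
        by_contra h5
        have h6 : v * ew ≤ 1 * ew := Nat.mul_le_mul_right ew (not_lt.1 h5)
        omega
      have h5 : 2 * ew ≤ v * ew := Nat.mul_le_mul_right ew h4
      omega
  · have h3 := hreg hjm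
    rcases hG12 with rfl | rfl <;> omega

/-- **The poles.** -/
theorem local_main (hD : Squarefree D) (h : Pell D P Q r) {A : ℝ[X]} {w : ℂ[X]}
    (hw : 0 < w.natDegree) (hA : 0 < A.natDegree) (hPA : P = (A.map (algebraMap ℝ ℂ)).comp w)
    (htr : TotallyReal A) {n R U V : ℂ[X]} (hR : R ≠ 0) (hUV : IsCoprime U V) (hV : V ≠ 0)
    (hid : WW D r n R * V.comp w = r ^ 3 * U.comp w) (β : ℂ) :
    (rootMultiplicity (w.eval β) V ≠ 0 → (w.eval β).im = 0 ∧ 1 < |A.eval (w.eval β).re| ∧
      0 < rootMultiplicity (w.eval β) (derivative (A.map (algebraMap ℝ ℂ))) ∧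
      rootMultiplicity (w.eval β) V ≤
        2 * rootMultiplicity (w.eval β) (derivative (A.map (algebraMap ℝ ℂ))) + 1) ∧
    (rootMultiplicity β R < rootMultiplicity β r →
      rootMultiplicity (w.eval β) (derivative (A.map (algebraMap ℝ ℂ))) + 1 <
        rootMultiplicity (w.eval β) V) := by
  set G := A.map (algebraMap ℝ ℂ) with hG
  have hGdeg : 0 < G.natDegree := by rwa [hG, natDegree_map]
  set z := w.eval β with hz
  have hPz : P.eval β = G.eval z := by rw [hPA, eval_comp]
  have hGne := ne_const hGdeg (G.eval z)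
  have hG' : derivative G ≠ 0 := by
    rw [Ne, derivative_eq_zero]
    omega
  have hroot : (G - C (G.eval z)).IsRoot z := by rw [IsRoot.def, eval_sub, eval_C, sub_self]
  have heG : rootMultiplicity z (G - C (G.eval z)) = rootMultiplicity z (derivative G) + 1 := by
    have h2 := derivative_rootMultiplicity_of_root hroot
    rw [derivative_sub, derivative_C, sub_zero] at h2
    have h3 := (rootMultiplicity_pos hGne).2 hroot
    omega
  set ε := rootMultiplicity z (derivative G) with hε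
  set ew := rootMultiplicity β (w - C z) with hew
  set v := rootMultiplicity z V with hv
  have hprod : (ε + 1) * ew = rootMultiplicity β r + rootMultiplicity β Q + 1 := by
    rw [← h.mult β, ← heG]
    have e1 : P - C (P.eval β) = (G - C (G.eval z)).comp w := by
      rw [sub_comp, C_comp, ← hPA, hPz]
    rw [e1, comp_mult hw hGne β]
  set m := rootMultiplicity β r with hm
  set q := rootMultiplicity β Q with hq
  set δ := rootMultiplicity β D with hδ
  set j := rootMultiplicity β R with hj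
  set o := rootMultiplicity β (WW D r n R) with ho
  have hδ1 : δ ≤ 1 := mult_le_one hD β
  have hr0 := h.r_ne
  obtain ⟨a, ha, ha'⟩ := exists_eq_pow_rootMultiplicity_mul_and_not_dvd _ hr0 β
  obtain ⟨b, hb, hb'⟩ := exists_eq_pow_rootMultiplicity_mul_and_not_dvd _ hR β
  obtain ⟨d, hd, hd'⟩ := exists_eq_pow_rootMultiplicity_mul_and_not_dvd _ hD.ne_zero β
  rw [dvd_iff_isRoot, IsRoot.def] at ha' hb' hd'
  rw [← hm] at ha
  rw [← hj] at hb
  rw [← hδ] at hd
  have hpol : j < m → WW D r n R ≠ 0 ∧ o + 1 = m + j + δ := fun hjm =>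
    WW_order ha hb hd ha' hb' hd' hjm hδ1
  -- `V` is a unit if the numerator vanishes
  by_cases hW0 : WW D r n R = 0
  · have hU0 : U = 0 := by
      rw [hW0, zero_mul] at hid
      have h3 := (mul_eq_zero.1 hid.symm).resolve_left (pow_ne_zero 3 hr0)
      rcases comp_eq_zero_iff.1 h3 with h4 | h4
      · exact h4
      · rw [h4.2, natDegree_C] at hw
        exact absurd hw (lt_irrefl _)
    have hVu : IsUnit V := by
      rw [hU0, isCoprime_zero_left] at hUV
      exact hUV
    have hv0 : v = 0 := by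
      rw [hv]
      refine rootMultiplicity_eq_zero fun hr => ?_
      obtain ⟨κ, hκ, hκ2⟩ := isUnit_iff.1 hVu
      rw [← hκ2, IsRoot.def, eval_C] at hr
      exact hκ.ne_zero hr
    exact ⟨fun hv' => absurd hv0 hv', fun hjm => absurd hW0 (hpol hjm).1⟩
  have hU0 : U ≠ 0 := by
    rintro rfl
    rw [zero_comp, mul_zero] at hid
    rcases mul_eq_zero.1 hid with h3 | h3
    · exact hW0 h3
    · rcases comp_eq_zero_iff.1 h3 with h4 | h4
      · exact hV h4
      · rw [h4.2, natDegree_C] at hw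
        exact lt_irrefl _ hw
  have hVw : V.comp w ≠ 0 := by
    intro h3
    rcases comp_eq_zero_iff.1 h3 with h4 | h4
    · exact hV h4
    · rw [h4.2, natDegree_C] at hw
      exact lt_irrefl _ hw
  have hUw : U.comp w ≠ 0 := by
    intro h3
    rcases comp_eq_zero_iff.1 h3 with h4 | h4
    · exact hU0 h4
    · rw [h4.2, natDegree_C] at hw
      exact lt_irrefl _ hw
  have hord : o + v * ew = 3 * m + rootMultiplicity z U * ew := by
    have h1 := congrArg (rootMultiplicity β) hid
    rw [rootMultiplicity_mul (mul_ne_zero hW0 hVw), rootMultiplicity_mul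
      (mul_ne_zero (pow_ne_zero 3 hr0) hUw), comp_mult hw hV, comp_mult hw hU0,
      rootMultiplicity_pow' hr0] at h1
    exact h1
  have huv : v ≠ 0 → rootMultiplicity z U = 0 := by
    intro hv'
    refine rootMultiplicity_eq_zero fun hr => ?_
    exact isCoprime_eval hUV hr ((rootMultiplicity_pos hV).1 (Nat.pos_of_ne_zero hv'))
  have hreg : m ≤ j → 2 * m ≤ o := fun hmj => WW_ge (by rw [ha]; exact dvd_mul_right _ _)
    (by rw [hb]; exact dvd_mul_of_dvd_left (pow_dvd_pow _ hmj) _) hW0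
  have hpol' : j < m → o + 1 = m + j + δ := fun hjm => (hpol hjm).2
  have hpv : j < m → v ≠ 0 := by
    intro hjm hv0
    rw [hv0, zero_mul, add_zero] at hord
    have := hpol' hjm
    omega
  have hmain : v ≠ 0 → P.eval β ^ 2 ≠ 1 ∧ 2 ≤ ε + 1 ∧ v ≤ 2 * (ε + 1) - 1 ∧
      (j < m → ε + 1 < v) := by
    intro hv'
    rw [huv hv', zero_mul, add_zero] at hord
    by_cases hP1 : P.eval β ^ 2 = 1
    · exfalso
      obtain ⟨t, ht, ht1⟩ : ∃ t : ℝ, G.eval z = t ∧ |t| = 1 := by
        rw [hPz] at hP1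
        rcases sq_eq_one_iff.1 hP1 with h4 | h4
        · exact ⟨1, by rw [h4]; simp, by simp⟩
        · exact ⟨-1, by rw [h4]; simp, by simp⟩
      have hG2 : ε + 1 ≤ 2 := by
        by_contra h4
        push Not at h4
        have h5 := htr.ram hA (v := z) (t := t) (by rw [← hG, ht]) ht1.le (by
          rw [← hG, ← ht, heG]
          omega)
        rw [← hG, ← ht, heG] at h5
        omega
      have h5 := pell_pm hD h hP1
      rw [h.mult β] at h5
      exact arith_b hprod (by rw [hprod]; exact h5) hδ1 hG2 hreg hpol' hord hv'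
    · obtain ⟨h4, h5⟩ := h.ne_of_sq_ne hP1
      have hδ0 : δ = 0 := rootMultiplicity_eq_zero h4
      have hq0 : q = 0 := rootMultiplicity_eq_zero h5
      rw [hq0, add_zero] at hprod
      obtain ⟨k1, k2, k3⟩ := arith_a hprod hreg (fun hjm => by
        rw [hpol' hjm, hδ0, add_zero]) hord hv'
      exact ⟨hP1, k1, k2, k3⟩
  refine ⟨fun hv' => ?_, fun hjm => (hmain (hpv hjm)).2.2.2 hjm⟩
  obtain ⟨k0, k1, k2, k3⟩ := hmain hv'
  have hεpos : 0 < ε := by omega
  have him : z.im = 0 := htr.crit hA ((rootMultiplicity_pos hG').1 hεpos)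
  have hzr : z = ((z.re : ℝ) : ℂ) := Complex.ext rfl (by rw [him, Complex.ofReal_im])
  have hGz : G.eval z = ((A.eval z.re : ℝ) : ℂ) := by
    conv_lhs => rw [hzr]
    exact conj_eval A z.re
  refine ⟨him, ?_, hεpos, by omega⟩
  by_contra h4
  push Not at h4
  have h5 := htr.ram hA (v := z) (t := A.eval z.re) hGz h4 (by
    rw [← hG, ← hGz, heG]
    omega)
  apply k0
  rw [hPz, hGz]
  have h6 : (A.eval z.re) ^ 2 = 1 := by rw [← sq_abs, h5.1, one_pow]
  exact_mod_cast h6

end Pool.Agent.Run7.h153.PC
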