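import Pool.Agent.Run7.h153.PC.Core
set_option autoImplicit false

/-!
Real special points of real curves: the regulators see the imaginary parts of the periods.
-/

namespace Pool.Agent.Run7.h153.PC

open Polynomial Filter Set MeasureTheory

open Pool.Agent.Y94.R

open scoped ComplexConjugate Topology

/-- the polynomial has real coefficients -/
def IsReal (p : ℂ[X]) : Prop := p.map (starRingEnd ℂ) = p

theorem IsReal.im {p : ℂ[X]} (h : IsReal p) (t : ℝ) : (p.eval (t : ℂ)).im = 0 := by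
  rw [← Complex.conj_eq_iff_im, ← eval_conj_of_real p (Complex.ofReal_im t), h]

theorem IsReal.derivative {p : ℂ[X]} (h : IsReal p) : IsReal (derivative p) := by
  unfold IsReal
  rw [← derivative_map, h]

theorem isReal_map {R : Type*} [CommRing R] (f : R →+* ℝ) (p : R[X]) :
    IsReal (p.map ((algebraMap ℝ ℂ).comp f)) := by
  unfold IsReal
  rw [Polynomial.map_map]
  congr 1
  ext x
  simp

/-- real special points are dense -/
theorem special_dense {P : ℂ[X]} (hP : IsReal P) (hdeg : 0 < P.natDegree) {t₀ : ℝ}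
    (ht₀ : |(P.eval (t₀ : ℂ)).re| < 1) {U : Set ℝ} (hU : U ∈ 𝓝 t₀) :
    ∃ t ∈ U, Special P (t : ℂ) := by
  set f : ℝ → ℝ := fun t => (P.eval (t : ℂ)).re with hf
  have hfc : Continuous f := Complex.continuous_re.comp
    (P.continuous.comp Complex.continuous_ofReal)
  have hPf : ∀ t : ℝ, P.eval (t : ℂ) = ((f t : ℝ) : ℂ) := fun t =>
    Complex.ext rfl (by rw [hP.im, Complex.ofReal_im])
  have hV : U ∩ {t | |f t| < 1} ∈ 𝓝 t₀ := Filter.inter_mem hU
    ((isOpen_lt (continuous_abs.comp hfc) continuous_const).mem_nhds ht₀)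
  obtain ⟨δ, hδ, hball⟩ := Metric.mem_nhds_iff.1 hV
  obtain ⟨t₁, ht₁, hne⟩ : ∃ t₁ ∈ Metric.ball t₀ δ, f t₁ ≠ f t₀ := by
    by_contra hcon
    push Not at hcon
    refine ne_const hdeg ((f t₀ : ℝ) : ℂ) (eq_zero_of_infinite_isRoot _ ?_)
    have h1 : (Metric.ball t₀ δ).Infinite := infinite_of_mem_nhds t₀ (Metric.ball_mem_nhds t₀ hδ)
    refine (h1.image (f := fun t : ℝ => (t : ℂ)) (Complex.ofReal_injective.injOn)).mono ?_
    rintro _ ⟨t, ht, rfl⟩
    show IsRoot _ _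
    rw [IsRoot.def, eval_sub, eval_C, hPf t, hcon t ht, sub_self]
  have habs0 := ht₀
  have habs1 : |f t₁| < 1 := (hball ht₁).2
  have habs : |(f t₀ + f t₁) / 2| < 1 := by
    rw [abs_lt] at *
    constructor <;> linarith [habs0.1, habs0.2, habs1.1, habs1.2]
  have hmin : min (f t₀) (f t₁) < (f t₀ + f t₁) / 2 := by
    rcases lt_or_gt_of_ne hne with h | h
    · rw [min_eq_right h.le]
      linarith
    · rw [min_eq_left h.le]
      linarith
  have hmax : (f t₀ + f t₁) / 2 < max (f t₀) (f t₁) := by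
    rcases lt_or_gt_of_ne hne with h | h
    · rw [max_eq_left h.le]
      linarith
    · rw [max_eq_right h.le]
      linarith
  obtain ⟨s, hs, ζ, n, hn, h1, h2⟩ := frequently_special habs _ (Ioo_mem_nhds hmin hmax)
  have hs' : s ∈ uIcc (f t₀) (f t₁) := ⟨hs.1.le, hs.2.le⟩
  obtain ⟨t, ht, hts⟩ := intermediate_value_uIcc hfc.continuousOn hs'
  have htb : t ∈ Metric.ball t₀ δ := by
    have hc : Convex ℝ (Metric.ball t₀ δ) := convex_ball t₀ δ
    exact hc.ordConnected.uIcc_subset (Metric.mem_ball_self hδ) ht₁ ht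
  refine ⟨t, (hball htb).1, ζ, n, hn, h1, ?_⟩
  rw [hPf t, hts]
  exact h2

variable {D P Q r : ℂ[X]} {m : ℕ} (γ : Fin m → Lp D) (c : Fin m → ℝ)

/-- the combination of the integrals `J` is real -/
theorem im_J (h : Pell D P Q r) (hP : IsReal P) {U : Set ℝ} (hU : IsOpen U)
    (hoff : ∀ t ∈ U, ∀ l, (γ l).Off (t : ℂ)) (hlt : ∀ t ∈ U, |(P.eval (t : ℂ)).re| < 1) (κ : ℝ)
    (hκ : ∀ t ∈ U, Special P (t : ℂ) → ∑ l, c l * (γ l).rho P Q (t : ℂ) = κ) :
    ∀ t ∈ U, (Jc γ c r (t : ℂ)).im = 0 := by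
  have hder : ∀ t ∈ U, HasDerivAt (fun t : ℝ => ∑ l, c l * (γ l).rho P Q (t : ℂ))
      (Jc γ c r (t : ℂ)).im t := by
    intro t ht
    obtain ⟨δ, hδ, hsub⟩ := Metric.isOpen_iff.1 hU t ht
    have hsub' : Metric.closedBall t (δ / 2) ⊆ U :=
      (Metric.closedBall_subset_ball (half_lt_self hδ)).trans hsub
    have h1 : ∀ l ∈ Finset.univ, HasDerivAt (fun t : ℝ => c l * (γ l).rho P Q (t : ℂ))
        (c l * ((1 : ℂ) * (γ l).J r (t : ℂ)).im) t := by
      intro l _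
      refine HasDerivAt.const_mul _ ((γ l).hasDerivAt_rho h (half_pos hδ)
        (β := fun t : ℝ => (t : ℂ)) (β' := fun _ => 1) (fun s _ => ?_) continuousOn_const
        fun s hs => hoff s (hsub' hs) l)
      exact Complex.ofRealCLM.hasDerivAt
    have h2 := HasDerivAt.fun_sum h1
    refine h2.congr_deriv ?_
    unfold Jc
    rw [Complex.im_sum]
    refine Finset.sum_congr rfl fun l _ => ?_
    rw [one_mul, Complex.im_ofReal_mul]
  have hK : ∀ t ∈ U, ∑ l, c l * (γ l).rho P Q (t : ℂ) = κ := by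
    intro t ht
    refine tendsto_nhds_unique_of_frequently_eq (hder t ht).continuousAt.tendsto
      tendsto_const_nhds ?_
    rw [Filter.frequently_iff]
    intro V hV
    obtain ⟨s, hs, hsp⟩ := special_dense hP h.deg (hlt t ht)
      (Filter.inter_mem hV (hU.mem_nhds ht))
    exact ⟨s, hs.1, hκ s hs.2 hsp⟩
  intro t ht
  have h4 : HasDerivAt (fun t : ℝ => ∑ l, c l * (γ l).rho P Q (t : ℂ)) 0 t :=
    (hasDerivAt_const t κ).congr_of_eventuallyEq (by
      filter_upwards [hU.mem_nhds ht] with s hs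
      exact hK s hs)
  exact (hder t ht).unique h4

/-- the numerator is real -/
theorem im_WW (hD : IsReal D) (hr : IsReal r) {U : Set ℝ} (hU : IsOpen U)
    (hoff : ∀ t ∈ U, ∀ l, (γ l).Off (t : ℂ)) (hJ : ∀ t ∈ U, (Jc γ c r (t : ℂ)).im = 0) :
    ∀ t ∈ U, r.eval (t : ℂ) ≠ 0 → ((Num γ r c).eval (t : ℂ)).im = 0 := by
  intro t ht hrt
  set R := RR (Ic γ c) r with hR
  obtain ⟨k, hk⟩ : ∃ k : ℂ → ℂ, k = fun b => J0c γ c b + R.eval b / r.eval b := ⟨_, rfl⟩
  have hk0 : ∀ s ∈ U, r.eval (s : ℂ) ≠ 0 → (k s).im = 0 := by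
    intro s hs hrs
    have h1 := hJ s hs
    have h2 : Jc γ c r (s : ℂ) = r.eval (s : ℂ) * k s := by
      rw [Jc_eq γ c r (hoff s hs), hk, ← hR]
      field_simp
    obtain ⟨ρ, hρ⟩ : ∃ ρ : ℝ, r.eval (s : ℂ) = ρ := ⟨_, Complex.ext rfl (hr.im s)⟩
    rw [h2, hρ, Complex.im_ofReal_mul] at h1
    refine (mul_eq_zero.1 h1).resolve_left ?_
    rintro rfl
    exact hrs hρ
  set k' : ℂ := J1c γ c t + ((derivative R).eval (t : ℂ) * r.eval (t : ℂ) -
    R.eval (t : ℂ) * (derivative r).eval (t : ℂ)) / r.eval (t : ℂ) ^ 2 with hk'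
  have hkd : HasDerivAt k k' (t : ℂ) := by
    rw [hk]
    exact (hasDerivAt_J0c γ c (hoff t ht)).add ((R.hasDerivAt _).div (r.hasDerivAt _) hrt)
  have hkd2 : HasDerivAt (fun s : ℝ => k s) k' t := hkd.comp_ofReal
  have hk'0 : k'.im = 0 := by
    have h1 : HasDerivAt (fun s : ℝ => (k s).im) k'.im t :=
      Complex.imCLM.hasFDerivAt.comp_hasDerivAt t hkd2
    have h2 : HasDerivAt (fun s : ℝ => (k s).im) 0 t := by
      refine (hasDerivAt_const t (0 : ℝ)).congr_of_eventuallyEq ?_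
      have h3 : ∀ᶠ s : ℝ in 𝓝 t, r.eval (s : ℂ) ≠ 0 :=
        (r.continuous.comp Complex.continuous_ofReal).continuousAt.eventually_ne hrt
      filter_upwards [hU.mem_nhds ht, h3] with s h4 h5
      exact hk0 s h4 h5
    exact h1.unique h2
  have hex := exch_c γ c (hoff t ht)
  have hW : (Num γ r c).eval (t : ℂ) = r.eval (t : ℂ) ^ 2 *
      (1 / 2 * (derivative D).eval (t : ℂ) * k t + D.eval (t : ℂ) * k') := by
    unfold Num WW Rc
    simp only [eval_add, eval_mul, eval_pow, eval_sub, eval_C]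
    rw [← hex, hk', hk, ← hR]
    field_simp
    ring
  obtain ⟨ρ, hρ⟩ : ∃ ρ : ℝ, r.eval (t : ℂ) = ρ := ⟨_, Complex.ext rfl (hr.im t)⟩
  obtain ⟨δ, hδ⟩ : ∃ δ : ℝ, D.eval (t : ℂ) = δ := ⟨_, Complex.ext rfl (hD.im t)⟩
  obtain ⟨δ', hδ'⟩ : ∃ δ' : ℝ, (derivative D).eval (t : ℂ) = δ' :=
    ⟨_, Complex.ext rfl (hD.derivative.im t)⟩
  obtain ⟨κ, hκ⟩ : ∃ κ : ℝ, k t = κ := ⟨_, Complex.ext rfl (hk0 t ht hrt)⟩
  obtain ⟨κ', hκ'⟩ : ∃ κ' : ℝ, k' = κ' := ⟨_, Complex.ext rfl hk'0⟩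
  rw [hW, hρ, hδ, hδ', hκ, hκ']
  have e : (ρ : ℂ) ^ 2 * (1 / 2 * (δ' : ℂ) * κ + δ * κ') =
      ((ρ ^ 2 * (1 / 2 * δ' * κ + δ * κ') : ℝ) : ℂ) := by
    push_cast
    ring
  rw [e, Complex.ofReal_im]

theorem WW_sub (D r n n' R R' : ℂ[X]) : WW D r (n - n') (R - R') = WW D r n R - WW D r n' R' := by
  unfold WW
  rw [derivative_sub]
  ring

/-- the polynomial `R` is real -/
theorem real_R (h : Pell D P Q r) (hD : IsReal D) (hr : IsReal r) (hsq : Squarefree D)
    {U : Set ℝ} (hUinf : U.Infinite)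
    (hW : ∀ t ∈ U, r.eval (t : ℂ) ≠ 0 → ((Num γ r c).eval (t : ℂ)).im = 0) :
    IsReal (Rc γ r c) := by
  have hr0 := h.r_ne
  set W := Num γ r c with hWdef
  have hfinr : {t : ℝ | r.eval (t : ℂ) = 0}.Finite := by
    refine Set.Finite.of_finite_image (f := fun t : ℝ => (t : ℂ)) ?_
      (Complex.ofReal_injective.injOn)
    refine (r.roots.toFinset.finite_toSet).subset ?_
    rintro _ ⟨t, ht, rfl⟩
    rw [Finset.mem_coe, Multiset.mem_toFinset, mem_roots hr0]
    exact ht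
  have hWr : IsReal W := by
    refine Polynomial.eq_of_infinite_eval_eq _ _ ?_
    refine ((hUinf.sdiff hfinr).image (f := fun t : ℝ => (t : ℂ))
      (Complex.ofReal_injective.injOn)).mono ?_
    rintro _ ⟨t, ⟨ht, htr⟩, rfl⟩
    show (W.map (starRingEnd ℂ)).eval (t : ℂ) = W.eval (t : ℂ)
    rw [eval_conj_of_real _ (Complex.ofReal_im t), Complex.conj_eq_iff_im]
    exact hW t ht htr
  have hconjC : (C (1 / 2 : ℂ) : ℂ[X]).map (starRingEnd ℂ) = C (1 / 2) := by
    rw [map_C, map_div₀, map_one, map_ofNat]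
  have hWc : W.map (starRingEnd ℂ) = WW D r ((nF (Ic γ c) (NN D)).map (starRingEnd ℂ))
      ((Rc γ r c).map (starRingEnd ℂ)) := by
    rw [hWdef]
    unfold Num WW
    simp only [Polynomial.map_add, Polynomial.map_mul, Polynomial.map_sub, Polynomial.map_pow,
      ← derivative_map, hconjC]
    rw [show D.map (starRingEnd ℂ) = D from hD, show r.map (starRingEnd ℂ) = r from hr]
  have hzero : WW D r (nF (Ic γ c) (NN D) - (nF (Ic γ c) (NN D)).map (starRingEnd ℂ))
      (Rc γ r c - (Rc γ r c).map (starRingEnd ℂ)) = 0 := by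
    rw [WW_sub, ← hWc, show W.map (starRingEnd ℂ) = W from hWr]
    exact sub_self _
  by_contra hne
  have hR0 : Rc γ r c - (Rc γ r c).map (starRingEnd ℂ) ≠ 0 := by
    intro h0
    exact hne (sub_eq_zero.1 h0).symm
  have hdeg : (Rc γ r c - (Rc γ r c).map (starRingEnd ℂ)).degree < r.degree := by
    have h1 : (Rc γ r c).degree < r.degree := RR_degree _ _ hr0
    refine (degree_sub_le _ _).trans_lt (max_lt h1 ?_)
    rw [degree_map]
    exact h1
  obtain ⟨β, hβ⟩ : ∃ β, rootMultiplicity β (Rc γ r c - (Rc γ r c).map (starRingEnd ℂ)) <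
      rootMultiplicity β r := by
    by_contra hcon
    push Not at hcon
    have h3 : r ∣ Rc γ r c - (Rc γ r c).map (starRingEnd ℂ) := by
      rw [IsAlgClosed.dvd_iff_roots_le_roots hr0 hR0, Multiset.le_iff_count]
      intro a
      rw [count_roots, count_roots]
      exact hcon a
    exact hR0 (Polynomial.eq_zero_of_dvd_of_degree_lt h3 hdeg)
  obtain ⟨a, ha, ha'⟩ := exists_eq_pow_rootMultiplicity_mul_and_not_dvd _ hr0 β
  obtain ⟨b, hb, hb'⟩ := exists_eq_pow_rootMultiplicity_mul_and_not_dvd _ hR0 β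
  obtain ⟨d, hd, hd'⟩ := exists_eq_pow_rootMultiplicity_mul_and_not_dvd _ hsq.ne_zero β
  rw [dvd_iff_isRoot, IsRoot.def] at ha' hb' hd'
  exact (WW_order (n := nF (Ic γ c) (NN D) - (nF (Ic γ c) (NN D)).map (starRingEnd ℂ)) ha hb hd
    ha' hb' hd' hβ (mult_le_one hsq β)).1 hzero

/-- the periods are real -/
theorem im_I (hr0 : r ≠ 0) (hr : IsReal r) (hR : IsReal (Rc γ r c)) {j : ℕ}
    (hj : j < r.natDegree) : (Ic γ c (X ^ j)).im = 0 := by
  have hXc : ∀ i : ℕ, (X ^ i : ℂ[X]).map (starRingEnd ℂ) = X ^ i := fun i => by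
    rw [Polynomial.map_pow, map_X]
  set φ : ℂ[X] →ₗ[ℂ] ℂ :=
    { toFun := fun q => Ic γ c q - conj (Ic γ c (q.map (starRingEnd ℂ)))
      map_add' := by
        intro p q
        rw [map_add, Polynomial.map_add, map_add, map_add]
        ring
      map_smul' := by
        intro a q
        rw [map_smul, smul_eq_C_mul, Polynomial.map_mul, map_C, ← smul_eq_C_mul, map_smul,
          smul_eq_mul, smul_eq_mul, map_mul, starRingEnd_self_apply, RingHom.id_apply, smul_eq_mul]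
        ring } with hφ
  have hφX : ∀ i : ℕ, φ (X ^ i) = Ic γ c (X ^ i) - conj (Ic γ c (X ^ i)) := by
    intro i
    show Ic γ c (X ^ i) - conj (Ic γ c ((X ^ i : ℂ[X]).map (starRingEnd ℂ))) = _
    rw [hXc]
  have hcoef : ∀ k, conj (r.coeff k) = r.coeff k := by
    intro k
    have h1 := congrArg (fun p => p.coeff k) hr
    simpa [coeff_map] using h1
  have h0 : RR φ r = 0 := by
    have h1 : RR φ r = RR (Ic γ c) r - (RR (Ic γ c) r).map (starRingEnd ℂ) := by
      unfold RR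
      rw [Polynomial.map_sum, ← Finset.sum_sub_distrib]
      refine Finset.sum_congr rfl fun k _ => ?_
      rw [Polynomial.map_sum, ← Finset.sum_sub_distrib]
      refine Finset.sum_congr rfl fun i _ => ?_
      rw [Polynomial.map_mul, map_C, hXc, ← sub_mul, ← C_sub, (starRingEnd ℂ).map_mul, hcoef, hφX,
        mul_sub]
    rw [h1]
    have h2 : (RR (Ic γ c) r).map (starRingEnd ℂ) = RR (Ic γ c) r := hR
    rw [h2, sub_self]
  have h1 := functional_zero φ r hr0 h0 j hj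
  rw [hφX, sub_eq_zero] at h1
  exact Complex.conj_eq_iff_im.1 h1.symm

/-- **Real points.** -/
theorem real_points (h : Pell D P Q r) (hsq : Squarefree D) (hD : IsReal D) (hP : IsReal P)
    (hr : IsReal r) {U : Set ℝ} (hU : IsOpen U) (hUne : U.Nonempty)
    (hoff : ∀ t ∈ U, ∀ l, (γ l).Off (t : ℂ)) (hlt : ∀ t ∈ U, |(P.eval (t : ℂ)).re| < 1) (κ : ℝ)
    (hκ : ∀ t ∈ U, Special P (t : ℂ) → ∑ l, c l * (γ l).rho P Q (t : ℂ) = κ) {j : ℕ}
    (hj : j < r.natDegree) : (Ic γ c (X ^ j)).im = 0 := by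
  obtain ⟨t, ht⟩ := hUne
  exact im_I γ c h.r_ne hr (real_R γ c h hD hr hsq (infinite_of_mem_nhds t (hU.mem_nhds ht))
    (im_WW γ c hD hr hU hoff (im_J γ c h hP hU hoff hlt κ hκ))) hj

end Pool.Agent.Run7.h153.PC
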