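import Pool.Agent.Run7.h153.PC.RealP
import Pool.Agent.N76.LP.All
set_option autoImplicit false

/-!
The choice of the real special points and of the loops.
-/

namespace Pool.Agent.Run7.h153.PC

open Polynomial Filter Set MeasureTheory Module

open Pool.Agent.Y94.R

open scoped ComplexConjugate Topology

/-- the choice of the points -/
theorem exists_real_pts {D P Q r : ℂ[X]} {g d : ℕ} (γ : Fin d → Lp D) (h : Pell D P Q r)
    (hsq : Squarefree D) (hdeg : D.natDegree = 2 * g + 2) (hD : IsReal D) (hP : IsReal P)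
    (hr : IsReal r) (hind : LinearIndependent ℝ fun (l : Fin d) (j : Fin g) =>
      (∫ t in (0 : ℝ)..1, (γ l).x t ^ (j : ℕ) * deriv (γ l).x t / (γ l).y t).im)
    {x₀ ε : ℝ} (hx₀ : |(P.eval (x₀ : ℂ)).re| < 1) (hoff : ∀ l, (γ l).Off (x₀ : ℂ))
    (hε : 0 < ε) : ∃ b : Fin (d + 1) → ℝ, (∀ i, |b i - x₀| < ε ∧ Special P (b i : ℂ) ∧
      ∀ l, (γ l).Off (b i : ℂ)) ∧ LinearIndependent ℝ fun (k : Fin d) (l : Fin d) =>
        (γ l).rho P Q (b k.succ : ℂ) - (γ l).rho P Q (b 0 : ℂ) := by
  classical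
  set U : Set ℝ := (Metric.ball x₀ ε ∩ {t : ℝ | |(P.eval (t : ℂ)).re| < 1}) ∩
    {t : ℝ | ∀ l, (γ l).Off (t : ℂ)} with hUdef
  have hU : IsOpen U := by
    refine (Metric.isOpen_ball.inter ?_).inter ?_
    · exact isOpen_lt (continuous_abs.comp (Complex.continuous_re.comp
        (P.continuous.comp Complex.continuous_ofReal))) continuous_const
    · exact (isOpen_off_all γ).preimage Complex.continuous_ofReal
  have hx₀U : x₀ ∈ U := ⟨⟨Metric.mem_ball_self hε, hx₀⟩, hoff⟩
  obtain ⟨b₀, hb₀U, hb₀⟩ := special_dense hP h.deg hx₀ (hU.mem_nhds hx₀U)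
  set S : Set ℝ := {t | t ∈ U ∧ Special P (t : ℂ)} with hS
  set v : ℝ → Fin d → ℝ := fun b l => (γ l).rho P Q (b : ℂ) with hv
  have hAnn : Ann S v b₀ = ⊥ := by
    rw [Submodule.eq_bot_iff]
    intro c hc
    have hκ : ∀ t ∈ U, Special P (t : ℂ) → ∑ l, c l * (γ l).rho P Q (t : ℂ) =
        ∑ l, c l * (γ l).rho P Q (b₀ : ℂ) := by
      intro t ht hsp
      have h1 := hc t ⟨ht, hsp⟩
      rw [← sub_eq_zero, ← Finset.sum_sub_distrib, ← h1]
      refine Finset.sum_congr rfl fun l _ => ?_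
      rw [hv]
      ring
    refine funext fun l => ?_
    refine Fintype.linearIndependent_iff.1 hind c ?_ l
    funext j
    have h2 := real_points γ c h hsq hD hP hr hU ⟨x₀, hx₀U⟩ (fun t ht => ht.2)
      (fun t ht => ht.1.2) _ hκ (j := (j : ℕ)) (by
        rw [h.natDegree_r hdeg]
        exact j.2)
    rw [Ic_apply, Complex.im_sum] at h2
    rw [Finset.sum_apply, Pi.zero_apply]
    refine Eq.trans (Finset.sum_congr rfl fun l _ => ?_) h2
    have h7 : ((γ l).I (X ^ (j : ℕ))) =
        ∫ t in (0 : ℝ)..1, (γ l).x t ^ (j : ℕ) * deriv (γ l).x t / (γ l).y t := by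
      rw [Lp.I_apply]
      refine intervalIntegral.integral_congr fun t _ => ?_
      rw [eval_pow, eval_X]
    rw [Pi.smul_apply, smul_eq_mul, Complex.im_ofReal_mul, h7]
  obtain ⟨b, hb, hli⟩ := exists_indep (m := d) (n := d) (k := 0) S v b₀ (by omega) (by
    rw [hAnn, finrank_bot])
  refine ⟨Fin.cons b₀ b, fun i => ?_, ?_⟩
  · have hS' : ∀ t ∈ S, |t - x₀| < ε ∧ Special P (t : ℂ) ∧ ∀ l, (γ l).Off (t : ℂ) := by
      intro t ht
      refine ⟨?_, ht.2, ht.1.2⟩
      have := ht.1.1.1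
      rwa [Metric.mem_ball, Real.dist_eq] at this
    refine Fin.cases ?_ (fun j => ?_) i
    · exact hS' b₀ ⟨hb₀U, hb₀⟩
    · exact hS' (b j) (hb j)
  · have h3 : (fun (k : Fin d) (l : Fin d) =>
        (γ l).rho P Q (((Fin.cons b₀ b : Fin (d + 1) → ℝ) k.succ : ℝ) : ℂ) -
        (γ l).rho P Q (((Fin.cons b₀ b : Fin (d + 1) → ℝ) 0 : ℝ) : ℂ)) =
        fun j => v (b j) - v b₀ := by
      funext j l
      rw [Fin.cons_succ, Fin.cons_zero]
      rfl
    rw [h3]
    exact hli

/-- the choice of a basis -/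
theorem exists_basis {g N : ℕ} (w : Fin N → Fin g → ℝ) (hw : Submodule.span ℝ (range w) = ⊤) :
    ∃ e : Fin g → Fin N, LinearIndependent ℝ fun l => w (e l) := by
  classical
  obtain ⟨B, hBV, hBs, hBi⟩ := exists_linearIndependent ℝ (range w)
  rw [hw] at hBs
  have hbasis : Module.Basis B ℝ (Fin g → ℝ) := Module.Basis.mk hBi (by
    rw [Subtype.range_coe]
    exact hBs.ge)
  have hfin : Finite B := Module.Finite.finite_basis hbasis
  let _ : Fintype B := Fintype.ofFinite B
  have hcard : Fintype.card B = g := by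
    rw [← Module.finrank_eq_card_basis hbasis]
    simp
  set e : Fin g ≃ B := (Fintype.equivFinOfCardEq hcard).symm with he
  choose f hf using fun k : Fin g => hBV (e k).2
  refine ⟨f, ?_⟩
  have h1 : (fun l => w (f l)) = (fun x : B => (x : Fin g → ℝ)) ∘ e := by
    funext l
    exact hf l
  rw [h1]
  exact hBi.comp e e.injective

/-- `g` loops with linearly independent imaginary parts of the periods -/
theorem exists_im_loops {D P r : ℂ[X]} {g : ℕ} (hD : Squarefree D)
    (hdeg : D.natDegree = 2 * g + 2) (hP : 0 < P.natDegree) (hr : r ≠ 0) :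
    ∃ γ : Fin g → Lp D, (LinearIndependent ℝ fun (l : Fin g) (j : Fin g) =>
      (∫ t in (0 : ℝ)..1, (γ l).x t ^ (j : ℕ) * deriv (γ l).x t / (γ l).y t).im) ∧
    {τ : ℝ | |τ| < 1 ∧ ∃ l t, P.eval ((γ l).x t) = (τ : ℂ)}.Finite := by
  obtain ⟨γ, h1, -, h3⟩ := Pool.Agent.N76.LP.exists_loops (g := g) hD hdeg hP hr
  set v : Fin (2 * g) → Fin g → ℂ := fun l j =>
    ∫ t in (0 : ℝ)..1, (γ l).x t ^ (j : ℕ) * deriv (γ l).x t / (γ l).y t with hv
  have hspan : Submodule.span ℝ (range v) = ⊤ := by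
    refine LinearIndependent.span_eq_top_of_card_eq_finrank' (b := v) h1 ?_
    rw [Fintype.card_fin, Module.finrank_pi_fintype]
    simp [Complex.finrank_real_complex, mul_comm]
  set imL : (Fin g → ℂ) →ₗ[ℝ] (Fin g → ℝ) :=
    { toFun := fun f j => (f j).im
      map_add' := fun f f' => by
        funext j
        simp
      map_smul' := fun a f => by
        funext j
        simp } with himL
  have hsurj : Function.Surjective imL := by
    intro f
    refine ⟨fun j => Complex.I * (f j : ℂ), ?_⟩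
    funext j
    show (Complex.I * (f j : ℂ)).im = f j
    simp
  have hspan2 : Submodule.span ℝ (range fun l => imL (v l)) = ⊤ := by
    have h4 : (range fun l => imL (v l)) = imL '' range v := by
      rw [← range_comp]
      rfl
    rw [h4, Submodule.span_image, hspan, Submodule.map_top, LinearMap.range_eq_top]
    exact hsurj
  obtain ⟨e, he⟩ := exists_basis (fun l => imL (v l)) hspan2
  refine ⟨fun l => γ (e l), he, h3.subset ?_⟩
  rintro τ ⟨h5, l, t, h6⟩
  exact ⟨h5, e l, t, h6⟩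

end Pool.Agent.Run7.h153.PC
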